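import Pool.Agent.P.MP_d483fb_an.Z.LS.Defs

/-!
The three inputs of the loop argument: existence of leafwise measures, the product structure for
an extreme slope, and the vanishing of leafwise measures on algebraic subsets.
-/

open scoped Matrix Matrix.Norms.Operator InnerProductSpace RealInnerProductSpace Topology ENNReal
open MeasureTheory ProbabilityTheory NormedSpace Filter Set

noncomputable section

namespace Pool.Agent.P.MP_d483fb_an.Z

namespace Pre

variable {X : Type} [MeasurableSpace X] {μ : Measure X} {ι : Type} [Fintype ι] [DecidableEq ι]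
  (S : Pre X μ ι)

/-- Leafwise measures exist for every interval of slopes. -/
def HasLW : Prop := ∀ J : Set ℝ, J.OrdConnected → Nonempty (S.Leafwise J)

/-- The product structure for an extreme slope. -/
def HasPS : Prop :=
  ∀ (J : Set ℝ) (χ : ℝ), J.OrdConnected → χ ∈ J → Wt.Extreme J χ →
    ∀ (o : S.Leafwise J) (o1 : S.Leafwise (J \ {χ})) (o2 : S.Leafwise {χ}),
      ∀ᵐ x ∂μ, ∃ c : ℝ≥0∞, c ≠ 0 ∧ c ≠ ∞ ∧ o.nu x = c • (o1.nu x ∗ₘ o2.nu x)

end Pre

variable {G : Type} [Group G] [TopologicalSpace G] {n k : ℕ} {D : Std G n k} {B : Type}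
  [TopologicalSpace B] [MeasurableSpace B] [MulAction G B] {X : Type} [MetricSpace X]
  [MeasurableSpace X] [MulAction G X] {μ : Measure X} {κ : Type} [Fintype κ] [DecidableEq κ]

/-- The full leafwise measures vanish on the proper algebraic subsets of the horospherical group. -/
def GeoPre.HasHP (S : GeoPre D B X μ κ) : Prop :=
  ∀ o : S.toPre.Leafwise univ, ∀ᵐ x ∂μ, ∀ F : MvPolynomial (Fin n × Fin n) ℝ,
    (∃ Y ∈ D.np S.Ha, MvPolynomial.eval (fun p => exp Y p.1 p.2) F ≠ 0) →
      o.om x {y | MvPolynomial.eval (fun p => (S.T x y).toBlocks₁₁ p.1 p.2) F = 0} = 0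

end Pool.Agent.P.MP_d483fb_an.Z
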