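import Pool.Agent.P.MP_d483fb_an.Z.Loop.Dec
import Pool.Agent.P.MP_d483fb_an.Z.Lie.StdW

/-!
The defect of a product of two root exponentials is given by the bracket, to leading order.
-/

open scoped Matrix Matrix.Norms.Operator InnerProductSpace RealInnerProductSpace Topology
open Set Filter NormedSpace

noncomputable section

namespace Pool.Agent.P.MP_d483fb_an.Z.Loop

variable {G : Type} [Group G] [TopologicalSpace G] [IsTopologicalGroup G] {n k : ℕ}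
  (D : Std G n k)

omit [IsTopologicalGroup G] in
theorem exp_rem {S T : Set (Euc k)} {Y : Mat n} (hY : Y ∈ D.wtS S)
    (h1 : ∀ σ ∈ S, ∀ τ ∈ S, σ + τ ∈ T) (h2 : ∀ σ ∈ S, ∀ τ ∈ T, σ + τ ∈ T) :
    exp Y - 1 - Y ∈ D.wtS T := by
  have hp : ∀ m : ℕ, Y ^ (m + 2) ∈ D.wtS T := fun m => by
    induction m with
    | zero => rw [zero_add, pow_two]; exact D.wtS_mul hY hY h1
    | succ m ih => rw [add_right_comm, pow_succ']; exact D.wtS_mul hY ih h2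
  have hs := (hasSum_nat_add_iff' 2).2 (exp_series_hasSum_exp' (𝕂 := ℝ) Y)
  simp only [Finset.sum_range_succ, Finset.range_zero, Finset.sum_empty, Nat.factorial_zero,
    Nat.cast_one, inv_one, pow_zero, one_smul, zero_add, Nat.factorial_one, pow_one] at hs
  rw [sub_sub]
  exact (D.wtS T).closed_of_finiteDimensional.mem_of_tendsto hs.tendsto_sum_nat
    (Eventually.of_forall fun N => Submodule.sum_mem _ fun m _ => Submodule.smul_mem _ _ (hp m))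

theorem pr_zero {T : Set (Euc k)} {γ : Euc k} {X : Mat n} (hX : X ∈ D.wtS T) (h : γ ∉ T) :
    D.pr γ X = 0 := D.prS_eq_zero hX (disjoint_singleton_left.2 h)

theorem pr_self {γ : Euc k} {X : Mat n} (hX : X ∈ D.wtS {γ}) : D.pr γ X = X := D.prS_eq_self.2 hX

theorem pr_one {γ : Euc k} (h : γ ≠ 0) : D.pr γ 1 = 0 :=
  pr_zero D (D.one_mem_wtS (S := {0}) rfl) h

omit [IsTopologicalGroup G] in
theorem sub_pr_mem {T : Set (Euc k)} (γ : Euc k) {X : Mat n} (hX : X ∈ D.wtS T) :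
    X - D.pr γ X ∈ D.wtS (T \ {γ}) := by
  intro i j hij
  rw [Matrix.sub_apply, Std.pr, D.prS_apply] at hij
  split_ifs at hij with h
  · simp at hij
  · exact ⟨hX i j (by simpa using hij), h⟩

theorem pr_exp_base {b : Euc k} (hb : b ≠ 0) {Y : Mat n}
    (hY : Y ∈ D.wtS {γ | ∃ c : ℝ, 1 ≤ c ∧ γ = c • b}) : D.pr b (exp Y) = D.pr b Y := by
  have h := exp_rem D (T := {γ | ∃ c : ℝ, 2 ≤ c ∧ γ = c • b}) hY
    (by rintro _ ⟨c, hc, rfl⟩ _ ⟨d, hd, rfl⟩; exact ⟨c + d, by linarith, (add_smul _ _ _).symm⟩)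
    (by rintro _ ⟨c, hc, rfl⟩ _ ⟨d, hd, rfl⟩; exact ⟨c + d, by linarith, (add_smul _ _ _).symm⟩)
  have h0 := pr_zero D h (γ := b) (by
    rintro ⟨c, hc, h1⟩
    have h2 : (c - 1) • b = 0 := by rw [sub_smul, one_smul, ← h1, sub_self]
    rcases smul_eq_zero.1 h2 with h3 | h3
    · linarith
    · exact hb h3)
  rwa [map_sub, map_sub, pr_one D hb, sub_zero, sub_eq_zero] at h0

/-- Two weights with different slopes. -/
structure Two (w : Wt (Fin n)) (al ga : Euc k) (β : ℝ) where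
  Ha : Euc k
  Ph : Euc k
  wa : ∀ i, w.wa i = ⟪D.lam i, Ha⟫
  wb : ∀ i, w.wb i = ⟪D.lam i, Ph⟫
  h1 : 0 < ⟪al, Ha⟫
  h2 : 0 < ⟪ga, Ha⟫
  hβ : β * ⟪al + ga, Ha⟫ = ⟪al + ga, Ph⟫
  lt : ⟪al, Ph⟫ * ⟪ga, Ha⟫ < ⟪ga, Ph⟫ * ⟪al, Ha⟫

/-- Subsets of the monoid generated by two weights. -/
def lat (al ga : Euc k) (P : ℕ → ℕ → Prop) : Set (Euc k) :=
  {γ | ∃ i j : ℕ, P i j ∧ γ = (i : ℝ) • al + (j : ℝ) • ga}

variable {D} {w : Wt (Fin n)} {al ga : Euc k} {β : ℝ}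

theorem lat_add {P Q R : ℕ → ℕ → Prop} (h : ∀ i j i' j', P i j → Q i' j' → R (i + i') (j + j')) :
    ∀ σ ∈ lat al ga P, ∀ τ ∈ lat al ga Q, σ + τ ∈ lat al ga R := by
  rintro _ ⟨i, j, hp, rfl⟩ _ ⟨i', j', hq, rfl⟩
  refine ⟨i + i', j + j', h _ _ _ _ hp hq, ?_⟩
  push_cast
  module

omit [IsTopologicalGroup G] in
theorem lat_mul {P Q : ℕ → ℕ → Prop} (R : ℕ → ℕ → Prop) {X Y : Mat n}
    (hX : X ∈ D.wtS (lat al ga P)) (hY : Y ∈ D.wtS (lat al ga Q))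
    (h : ∀ i j i' j', P i j → Q i' j' → R (i + i') (j + j')) : X * Y ∈ D.wtS (lat al ga R) :=
  D.wtS_mul hX hY (lat_add h)

theorem lat_mono {P : ℕ → ℕ → Prop} (Q : ℕ → ℕ → Prop) {X : Mat n} (hX : X ∈ D.wtS (lat al ga P))
    (h : ∀ i j, P i j → Q i j) : X ∈ D.wtS (lat al ga Q) :=
  D.wtS_mono (by rintro _ ⟨i, j, hp, rfl⟩; exact ⟨i, j, h i j hp, rfl⟩) hX

theorem lat_single (i j : ℕ) :
    lat al ga (fun a b => a = i ∧ b = j) = {(i : ℝ) • al + (j : ℝ) • ga} := by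
  ext γ
  exact ⟨by rintro ⟨_, _, ⟨rfl, rfl⟩, h⟩; exact h, fun h => ⟨i, j, ⟨rfl, rfl⟩, h⟩⟩

omit [IsTopologicalGroup G] in
theorem dilClosed_lat : w.DilClosed (D.wtS (lat al ga fun _ _ => True) : Set (Mat n)) where
  closed := (D.wtS _).closed_of_finiteDimensional
  mul _ ha _ hb := lat_mul _ ha hb fun _ _ _ _ _ _ => trivial
  inv a ha hn := by
    have h1 : (1 : Mat n) ∈ D.wtS (lat al ga fun _ _ => True) :=
      D.one_mem_wtS ⟨0, 0, trivial, by simp⟩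
    rw [hn.inv_eq]
    refine Submodule.sum_mem _ fun m _ => ?_
    induction m with
    | zero => simpa using h1
    | succ m ih =>
      rw [pow_succ]
      exact lat_mul _ (ih (by simp_all; omega)) (sub_mem h1 ha) fun _ _ _ _ _ _ => trivial
  conj σ τ a ha i j hij := by
    rw [Wt.dil_conj_apply] at hij
    exact ha i j (right_ne_zero_of_mul hij)

namespace Two

variable (t : Two D w al ga β)
include t

omit [IsTopologicalGroup G] in
theorem inj {i j i' j' : ℕ} (h : (i : ℝ) • al + (j : ℝ) • ga = (i' : ℝ) • al + (j' : ℝ) • ga) :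
    i = i' ∧ j = j' := by
  have e1 := congrArg (fun v => ⟪v, t.Ha⟫) h
  have e2 := congrArg (fun v => ⟪v, t.Ph⟫) h
  simp only [inner_add_left, real_inner_smul_left] at e1 e2
  have hd := sub_pos.2 t.lt
  have f1 : ((i : ℝ) - i') * (⟪ga, t.Ph⟫ * ⟪al, t.Ha⟫ - ⟪al, t.Ph⟫ * ⟪ga, t.Ha⟫) = 0 := by
    linear_combination ⟪ga, t.Ph⟫ * e1 - ⟪ga, t.Ha⟫ * e2
  have f2 : ((j : ℝ) - j') * (⟪ga, t.Ph⟫ * ⟪al, t.Ha⟫ - ⟪al, t.Ph⟫ * ⟪ga, t.Ha⟫) = 0 := by
    linear_combination ⟪al, t.Ha⟫ * e2 - ⟪al, t.Ph⟫ * e1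
  exact ⟨by exact_mod_cast sub_eq_zero.1 ((mul_eq_zero.1 f1).resolve_right hd.ne'),
    by exact_mod_cast sub_eq_zero.1 ((mul_eq_zero.1 f2).resolve_right hd.ne')⟩

theorem pr_lat {P : ℕ → ℕ → Prop} {X : Mat n} (hX : X ∈ D.wtS (lat al ga P)) (i j : ℕ)
    (h : ¬ P i j) : D.pr ((i : ℝ) • al + (j : ℝ) • ga) X = 0 :=
  pr_zero D hX (by
    rintro ⟨i', j', hp, he⟩
    obtain ⟨rfl, rfl⟩ := t.inj he
    exact h hp)

omit [IsTopologicalGroup G] in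
theorem gap {p q : Fin n} {i j : ℕ} (h : D.lam p - D.lam q = (i : ℝ) • al + (j : ℝ) • ga) :
    w.wa p - w.wa q = i * ⟪al, t.Ha⟫ + j * ⟪ga, t.Ha⟫ := by
  rw [t.wa, t.wa, ← inner_sub_left, h, inner_add_left, real_inner_smul_left, real_inner_smul_left]

omit [IsTopologicalGroup G] in
theorem sign {p q : Fin n} {i j : ℕ} (h : D.lam p - D.lam q = (i : ℝ) • al + (j : ℝ) • ga)
    (hlt : w.wa q < w.wa p) : ∃ c d : ℝ, 0 < c ∧ 0 < d ∧ (w.slope p q - β) * c = (j - i) * d := by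
  have e1 := Wt.slope_mul hlt
  have e2 : w.wb p - w.wb q = i * ⟪al, t.Ph⟫ + j * ⟪ga, t.Ph⟫ := by
    rw [t.wb, t.wb, ← inner_sub_left, h, inner_add_left, real_inner_smul_left, real_inner_smul_left]
  have e3 := t.hβ
  rw [inner_add_left, inner_add_left] at e3
  refine ⟨(w.wa p - w.wa q) * (⟪al, t.Ha⟫ + ⟪ga, t.Ha⟫), _,
    mul_pos (sub_pos.2 hlt) (add_pos t.h1 t.h2), sub_pos.2 t.lt, ?_⟩
  have e4 := t.gap h
  rw [e2] at e1
  rw [e4] at e1 ⊢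
  linear_combination (⟪al, t.Ha⟫ + ⟪ga, t.Ha⟫) * e1 - (i * ⟪al, t.Ha⟫ + j * ⟪ga, t.Ha⟫) * e3

omit [IsTopologicalGroup G] in
theorem sub_one_mem {J : Set ℝ} {P : ℕ → ℕ → Prop} {m : Mat n} (hm : w.Nil J m)
    (hl : m ∈ D.wtS (lat al ga fun _ _ => True))
    (h : ∀ (i j : ℕ) (σ c d : ℝ), σ ∈ J → 0 < c → 0 < d → (σ - β) * c = (j - i) * d → 0 < i + j →
      P i j) : m - 1 ∈ D.wtS (lat al ga P) := by
  intro p q hpq
  obtain ⟨h1, h2⟩ := hm p q hpq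
  rw [Matrix.sub_apply, Wt.one_apply_of_lt h1, sub_zero] at hpq
  obtain ⟨i, j, -, he⟩ := hl p q hpq
  obtain ⟨c, d, hc, hd, hs⟩ := t.sign he h1
  refine ⟨i, j, h i j _ c d h2 hc hd hs ?_, he⟩
  by_contra h0
  obtain ⟨rfl, rfl⟩ : i = 0 ∧ j = 0 := by omega
  have := t.gap he
  simp only [Nat.cast_zero, zero_mul, add_zero] at this
  linarith

omit [IsTopologicalGroup G] in
theorem nil_of_lat {J : Set ℝ} {P : ℕ → ℕ → Prop} {m : Mat n} (hm : m - 1 ∈ D.wtS (lat al ga P))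
    (h : ∀ (i j : ℕ), P i j → 0 < i + j ∧
      ∀ σ c d : ℝ, 0 < c → 0 < d → (σ - β) * c = (j - i) * d → σ ∈ J) : w.Nil J m := by
  intro p q hpq
  obtain ⟨i, j, hp, he⟩ := hm p q hpq
  have h1 : w.wa q < w.wa p := by
    rw [← sub_pos, t.gap he]
    have a1 := t.h1
    have a2 := t.h2
    rcases Nat.eq_zero_or_pos i with rfl | hi
    · have : 0 < j := by simpa using (h _ _ hp).1
      positivity
    · positivity
  obtain ⟨c, d, hc, hd, hs⟩ := t.sign he h1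
  exact ⟨h1, (h i j hp).2 _ c d hc hd hs⟩

theorem pr_dD {X Z : Mat n} (hX : X ∈ D.wtS {al}) (hZ : Z ∈ D.wtS {ga}) :
    D.pr (al + ga) (w.dD β (exp X * exp Z)) = X * Z - Z * X := by
  have a10 : ((1 : ℕ) : ℝ) • al + ((0 : ℕ) : ℝ) • ga = al := by simp
  have a01 : ((0 : ℕ) : ℝ) • al + ((1 : ℕ) : ℝ) • ga = ga := by simp
  have a11 : ((1 : ℕ) : ℝ) • al + ((1 : ℕ) : ℝ) • ga = al + ga := by simp
  have hX1 : X ∈ D.wtS (lat al ga fun a b => a = 1 ∧ b = 0) := by rwa [lat_single, a10]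
  have hZ1 : Z ∈ D.wtS (lat al ga fun a b => a = 0 ∧ b = 1) := by rwa [lat_single, a01]
  have h00 : (1 : Mat n) ∈ D.wtS (lat al ga fun a b => a = 0 ∧ b = 0) :=
    D.one_mem_wtS ⟨0, 0, ⟨rfl, rfl⟩, by simp⟩
  obtain ⟨x, hx, ex⟩ : ∃ x ∈ D.wtS (lat al ga fun a b => 2 ≤ a ∧ b = 0), exp X = 1 + X + x :=
    ⟨_, exp_rem D hX1 (lat_add (by omega)) (lat_add (by omega)), by abel⟩
  obtain ⟨z, hz, ez⟩ : ∃ z ∈ D.wtS (lat al ga fun a b => a = 0 ∧ 2 ≤ b), exp Z = 1 + Z + z :=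
    ⟨_, exp_rem D hZ1 (lat_add (by omega)) (lat_add (by omega)), by abel⟩
  have hx1 : exp X - 1 ∈ D.wtS (lat al ga fun a b => 1 ≤ a ∧ b = 0) := by
    rw [ex, add_assoc, add_sub_cancel_left]
    exact add_mem (lat_mono _ hX1 (by omega)) (lat_mono _ hx (by omega))
  have hz1 : exp Z - 1 ∈ D.wtS (lat al ga fun a b => a = 0 ∧ 1 ≤ b) := by
    rw [ez, add_assoc, add_sub_cancel_left]
    exact add_mem (lat_mono _ hZ1 (by omega)) (lat_mono _ hz (by omega))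
  have nX : w.Nil (Iio β) (exp X) := t.nil_of_lat hx1 fun i j ⟨h1, h2⟩ =>
    ⟨by omega, fun σ c d hc hd he => by
      have : (1 : ℝ) ≤ i := by exact_mod_cast h1
      rw [h2] at he
      change σ < β
      by_contra h3
      push_cast at he
      nlinarith [not_lt.1 h3]⟩
  have nZ : w.Nil (Ioi β) (exp Z) := t.nil_of_lat hz1 fun i j ⟨h1, h2⟩ =>
    ⟨by omega, fun σ c d hc hd he => by
      have : (1 : ℝ) ≤ j := by exact_mod_cast h2
      rw [h1] at he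
      change β < σ
      by_contra h3
      push_cast at he
      nlinarith [not_lt.1 h3]⟩
  have hall : ∀ {Y : Mat n} {P}, Y - 1 ∈ D.wtS (lat al ga P) →
      Y ∈ D.wtS (lat al ga fun _ _ => True) := fun {Y} _ h => by
    rw [← sub_add_cancel Y 1]
    exact add_mem (lat_mono _ h fun _ _ _ => trivial) (lat_mono _ h00 fun _ _ _ => trivial)
  have ng := Wt.Nil.mul ordConnected_univ nX.univ nZ.univ
  obtain ⟨r, q, nr, nq, lr, lq, ls, he⟩ := ng.exists_srq (β := β) (dilClosed_lat (D := D))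
    (lat_mul _ (hall hx1) (hall hz1) fun _ _ _ _ _ _ => trivial)
  rw [Wt.dD_mul nX nZ]
  have hs := t.sub_one_mem (P := fun a b => a = b ∧ 1 ≤ a) ng.ds ls fun i j σ c d h1 _ hd h4 h5 => by
    rw [show σ = β from h1, sub_self, zero_mul] at h4
    have : (j : ℝ) = i := sub_eq_zero.1 ((mul_eq_zero.1 h4.symm).resolve_right hd.ne')
    have : j = i := by exact_mod_cast this
    omega
  have hr := t.sub_one_mem (P := fun a b => a < b) nr lr fun i j σ c d h1 hc hd h4 _ => by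
    have h6 := mul_pos (sub_pos.2 (show β < σ from h1)) hc
    rw [h4] at h6
    have h7 : (i : ℝ) < j := sub_pos.1 (pos_of_mul_pos_left h6 hd.le)
    exact_mod_cast h7
  have hq := t.sub_one_mem (P := fun a b => b < a) nq lq fun i j σ c d h1 hc hd h4 _ => by
    have h6 := mul_neg_of_neg_of_pos (sub_neg.2 (show σ < β from h1)) hc
    rw [h4] at h6
    have h7 : (j : ℝ) < i := sub_neg.1 (neg_of_mul_neg_left h6 hd.le)
    exact_mod_cast h7
  generalize w.ds β (exp X * exp Z) = s at he hs ⊢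
  obtain ⟨σ, rfl⟩ : ∃ σ, s = 1 + σ := ⟨s - 1, by abel⟩
  obtain ⟨ρ, rfl⟩ : ∃ ρ, r = 1 + ρ := ⟨r - 1, by abel⟩
  obtain ⟨κ, rfl⟩ : ∃ κ, q = 1 + κ := ⟨q - 1, by abel⟩
  rw [add_sub_cancel_left] at hs hr hq
  have hρ1 : D.pr ga ρ ∈ D.wtS (lat al ga fun a b => a = 0 ∧ b = 1) := by
    rw [lat_single, a01]
    exact D.prS_mem_wtS _ _
  have hκ1 : D.pr al κ ∈ D.wtS (lat al ga fun a b => a = 1 ∧ b = 0) := by
    rw [lat_single, a10]
    exact D.prS_mem_wtS _ _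
  have hρ2 : ρ - D.pr ga ρ ∈ D.wtS (lat al ga fun a b => 2 ≤ a + b) := by
    refine D.wtS_mono ?_ (sub_pr_mem D ga hr)
    rintro _ ⟨⟨i, j, hij, rfl⟩, hne⟩
    refine ⟨i, j, ?_, rfl⟩
    by_contra h0
    obtain ⟨rfl, rfl⟩ : i = 0 ∧ j = 1 := by omega
    exact hne a01
  have hκ2 : κ - D.pr al κ ∈ D.wtS (lat al ga fun a b => 2 ≤ a + b) := by
    refine D.wtS_mono ?_ (sub_pr_mem D al hq)
    rintro _ ⟨⟨i, j, hij, rfl⟩, hne⟩
    refine ⟨i, j, ?_, rfl⟩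
    by_contra h0
    obtain ⟨rfl, rfl⟩ : i = 1 ∧ j = 0 := by omega
    exact hne a10
  have hE : σ * ρ + σ * κ + σ * ρ * κ + (ρ - D.pr ga ρ) * κ + D.pr ga ρ * (κ - D.pr al κ) -
      (X * z + x * Z + x * z) ∈ D.wtS (lat al ga fun a b => 3 ≤ a + b) := by
    refine sub_mem (add_mem (add_mem (add_mem (add_mem (lat_mul _ hs hr (by omega))
      (lat_mul _ hs hq (by omega))) (lat_mul _ (lat_mul (fun a b => 3 ≤ a + b) hs hr (by omega))
      hq (by omega))) (lat_mul _ hρ2 hq (by omega))) (lat_mul _ hρ1 hκ2 (by omega)))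
      (add_mem (add_mem (lat_mul _ hX1 hz (by omega)) (lat_mul _ hx hZ1 (by omega)))
      (lat_mul _ hx hz (by omega)))
  have key : X + Z + X * Z + x + z = σ + ρ + κ + D.pr ga ρ * D.pr al κ +
      (σ * ρ + σ * κ + σ * ρ * κ + (ρ - D.pr ga ρ) * κ + D.pr ga ρ * (κ - D.pr al κ) -
      (X * z + x * Z + x * z)) := by
    rw [ex, ez] at he
    have : (1 + σ) * (1 + ρ) * (1 + κ) - (1 + X + x) * (1 + Z + z) = 0 := sub_eq_zero.2 he
    rw [← sub_eq_zero, ← neg_eq_zero, ← this]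
    noncomm_ring
  have hXZ := lat_mul (fun a b => a = 1 ∧ b = 1) hX1 hZ1 (by omega)
  have hρκ := lat_mul (fun a b => a = 1 ∧ b = 1) hρ1 hκ1 (by omega)
  have k1 := congrArg (D.pr (((1 : ℕ) : ℝ) • al + ((0 : ℕ) : ℝ) • ga)) key
  have k2 := congrArg (D.pr (((0 : ℕ) : ℝ) • al + ((1 : ℕ) : ℝ) • ga)) key
  have k3 := congrArg (D.pr (((1 : ℕ) : ℝ) • al + ((1 : ℕ) : ℝ) • ga)) key
  simp only [map_add (D.pr _) _ _] at k1 k2 k3
  rw [t.pr_lat hZ1 1 0 (by omega), t.pr_lat hXZ 1 0 (by omega), t.pr_lat hx 1 0 (by omega),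
    t.pr_lat hz 1 0 (by omega), t.pr_lat hs 1 0 (by omega), t.pr_lat hr 1 0 (by omega),
    t.pr_lat hρκ 1 0 (by omega), t.pr_lat hE 1 0 (by omega), a10, pr_self D hX] at k1
  rw [t.pr_lat hX1 0 1 (by omega), t.pr_lat hXZ 0 1 (by omega), t.pr_lat hx 0 1 (by omega),
    t.pr_lat hz 0 1 (by omega), t.pr_lat hs 0 1 (by omega), t.pr_lat hq 0 1 (by omega),
    t.pr_lat hρκ 0 1 (by omega), t.pr_lat hE 0 1 (by omega), a01, pr_self D hZ] at k2
  rw [lat_single] at hXZ hρκ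
  rw [t.pr_lat hX1 1 1 (by omega), t.pr_lat hZ1 1 1 (by omega), t.pr_lat hx 1 1 (by omega),
    t.pr_lat hz 1 1 (by omega), t.pr_lat hr 1 1 (by omega), t.pr_lat hq 1 1 (by omega),
    t.pr_lat hE 1 1 (by omega), pr_self D hXZ, pr_self D hρκ] at k3
  simp only [add_zero, zero_add] at k1 k2 k3
  rw [← a11, map_add, t.pr_lat h00 1 1 (by omega), zero_add, k3, ← k1, ← k2, add_sub_cancel_right]

end Two

end Pool.Agent.P.MP_d483fb_an.Z.Loop
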