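import Pool.Agent.P.MP_d483fb_an.Z.Lie.Mx1

/-!
Closed groups of units in a finite dimensional algebra: the Lie algebra, and the countability of
the image of a character that vanishes on the one parameter subgroups.
-/

open scoped Topology
open NormedSpace Filter Set Metric

noncomputable section

namespace Pool.Agent.P.MP_d483fb_an.Z.Loop

variable {A : Type} [NormedRing A] [NormedAlgebra ℝ A] [CompleteSpace A]

/-- A closed set of units which is a group. -/
structure IsGrp (H : Set A) : Prop where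
  closed : IsClosed H
  one : (1 : A) ∈ H
  mul : ∀ a ∈ H, ∀ b ∈ H, a * b ∈ H
  inv : ∀ a ∈ H, ∃ b ∈ H, a * b = 1 ∧ b * a = 1

namespace IsGrp

variable {H : Set A} (hH : IsGrp H)
include hH

omit [NormedAlgebra ℝ A] [CompleteSpace A] in
theorem pow {a : A} (ha : a ∈ H) (m : ℕ) : a ^ m ∈ H := by
  induction m with
  | zero => simpa using hH.one
  | succ m ih => rw [pow_succ]; exact hH.mul _ ih _ ha

omit [NormedAlgebra ℝ A] [CompleteSpace A] in
theorem inv_mem {a b : A} (ha : a ∈ H) (h : a * b = 1) : b ∈ H := by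
  obtain ⟨c, hc, -, h2⟩ := hH.inv a ha
  rwa [← one_mul b, ← h2, mul_assoc, h, mul_one]

/-- The Lie algebra. -/
def lie : Submodule ℝ A where
  carrier := {V | ∀ t : ℝ, exp (t • V) ∈ H}
  zero_mem' := fun t => by simpa using hH.one
  smul_mem' := fun c V hV t => by rw [smul_smul]; exact hV _
  add_mem' := fun {V W} hV hW t => by
    rw [smul_add]
    refine hH.closed.mem_of_tendsto (trotter (t • V) (t • W)) (Eventually.of_forall fun m => ?_)
    rw [smul_smul, smul_smul]
    exact hH.pow (hH.mul _ (hV _) _ (hW _)) m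

theorem mem_lie {V : A} : V ∈ hH.lie ↔ ∀ t : ℝ, exp (t • V) ∈ H := Iff.rfl

theorem exp_mem {V : A} (hV : V ∈ hH.lie) : exp V ∈ H := by simpa using hV 1

theorem mem_lie_of_nonneg {V : A} (h : ∀ t : ℝ, 0 ≤ t → exp (t • V) ∈ H) : V ∈ hH.lie := by
  intro t
  rcases le_total 0 t with ht | ht
  · exact h t ht
  · refine hH.inv_mem (h (-t) (neg_nonneg.2 ht)) ?_
    rw [neg_smul, exp_neg_mul]

variable [FiniteDimensional ℝ A]

theorem br_mem {V W : A} (hV : V ∈ hH.lie) (hW : W ∈ hH.lie) : V * W - W * V ∈ hH.lie := by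
  refine br_mem_of_conj (X := V) (Y := W) hH.lie.closed_of_finiteDimensional
    (Eventually.of_forall fun t s => ?_)
  rw [← smul_mul_assoc, ← mul_smul_comm, ← exp_conj (exp_mul_neg _) (exp_neg_mul _), ← neg_smul]
  exact hH.mul _ (hH.mul _ (hV t) _ (hW s)) _ (hV _)

omit [FiniteDimensional ℝ A] in
theorem mem_lie_of_seq {Z : ℕ → A} {V : A} (hZ : ∀ m, exp (Z m) ∈ H) (h0 : ∀ m, Z m ≠ 0)
    (hl : Tendsto Z atTop (𝓝 0)) (hV : Tendsto (fun m => ‖Z m‖⁻¹ • Z m) atTop (𝓝 V)) :
    V ∈ hH.lie := by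
  refine hH.mem_lie_of_nonneg fun t ht => ?_
  have h1 : Tendsto (fun m => ‖Z m‖⁻¹) atTop atTop := tendsto_inv_nhdsGT_zero.comp
    (tendsto_nhdsWithin_iff.2 ⟨by simpa using hl.norm,
      Eventually.of_forall fun m => norm_pos_iff.2 (h0 m)⟩)
  have h2 := ((tendsto_nat_floor_mul_div_atTop ht).comp h1).smul hV
  refine hH.closed.mem_of_tendsto ((exp_cont.tendsto _).comp h2) (Eventually.of_forall fun m => ?_)
  simp only [Function.comp_apply]
  rw [smul_smul, div_mul_cancel₀ _ (inv_ne_zero (norm_ne_zero_iff.2 (h0 m))), exp_nat_smul]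
  exact hH.pow (hZ m) _

/-- The closed subgroup theorem. -/
theorem eventually_exp : ∀ᶠ h in 𝓝[H] (1 : A), ∃ V ∈ hH.lie, h = exp V := by
  obtain ⟨W, hW⟩ := hH.lie.exists_isCompl
  set p : A →L[ℝ] A := LinearMap.toContinuousLinearMap (hH.lie.projection W hW) with hp
  set q : A →L[ℝ] A := ContinuousLinearMap.id ℝ A - p with hq
  have hpm : ∀ Z, p Z ∈ hH.lie := fun Z => Submodule.projection_apply_mem hW Z
  have hqm : ∀ Z, q Z ∈ W := fun Z => by
    rw [← Submodule.projection_apply_eq_zero_iff hW]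
    change p (Z - p Z) = 0
    rw [map_sub, sub_eq_zero]
    exact (Submodule.projection_apply_of_mem_left hW (hpm Z)).symm
  have hd : HasStrictFDerivAt (fun Z => exp (p Z) * exp (q Z)) (ContinuousLinearMap.id ℝ A) 0 := by
    have e : ∀ r : A →L[ℝ] A, HasStrictFDerivAt (fun Z => exp (r Z)) r 0 := fun r => by
      have h1 : HasStrictFDerivAt (exp : A → A) (1 : A →L[ℝ] A) (r 0) := by
        rw [map_zero]
        exact hasStrictFDerivAt_exp_zero
      exact h1.comp 0 r.hasStrictFDerivAt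
    refine ((e p).fun_mul' (e q)).congr_fderiv ?_
    ext Z
    simp [hq]
  have hmap := hd.map_nhds_eq_of_surj (by simp)
  simp only [map_zero, exp_zero, mul_one] at hmap
  by_contra hno
  have h1 : ∀ m : ℕ, ∃ Z : A, ‖Z‖ < 1 / ((m : ℝ) + 1) ∧ exp (p Z) * exp (q Z) ∈ H ∧
      ¬ ∃ V ∈ hH.lie, exp (p Z) * exp (q Z) = exp V := fun m => by
    have h2 : (fun Z => exp (p Z) * exp (q Z)) '' ball 0 (1 / ((m : ℝ) + 1)) ∈ 𝓝 (1 : A) := by
      rw [← hmap]
      exact image_mem_map (ball_mem_nhds _ (by positivity))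
    obtain ⟨h, h3, ⟨Z, hZ, rfl⟩, h4⟩ := ((not_eventually.1 hno).and_eventually
      (Eventually.and (mem_nhdsWithin_of_mem_nhds h2) self_mem_nhdsWithin)).exists
    exact ⟨Z, mem_ball_zero_iff.1 hZ, h4, h3⟩
  choose Z hZ hZH hZn using h1
  have hZ0 : Tendsto Z atTop (𝓝 0) := tendsto_zero_iff_norm_tendsto_zero.2
    (squeeze_zero (fun _ => norm_nonneg _) (fun m => (hZ m).le)
      tendsto_one_div_add_atTop_nhds_zero_nat)
  have h0 : ∀ m, q (Z m) ≠ 0 := fun m h => hZn m ⟨_, hpm (Z m), by rw [h, exp_zero, mul_one]⟩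
  have hqH : ∀ m, exp (q (Z m)) ∈ H := fun m => by
    have := hH.mul _ (hH.exp_mem (neg_mem (hpm (Z m)))) _ (hZH m)
    rwa [← mul_assoc, exp_neg_mul, one_mul] at this
  have := FiniteDimensional.proper_real A
  obtain ⟨V, hV, φ, hφ, hl⟩ := (isCompact_sphere (0 : A) 1).tendsto_subseq
    (x := fun m => ‖q (Z m)‖⁻¹ • q (Z m)) fun m => by
      rw [mem_sphere_zero_iff_norm, norm_smul, norm_inv, norm_norm,
        inv_mul_cancel₀ (norm_ne_zero_iff.2 (h0 m))]
  have hVl : V ∈ hH.lie := hH.mem_lie_of_seq (Z := fun m => q (Z (φ m))) (fun m => hqH _)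
    (fun m => h0 _)
    (by simpa [Function.comp_def] using (q.continuous.tendsto 0).comp (hZ0.comp hφ.tendsto_atTop))
    hl
  have hVW : V ∈ W := W.closed_of_finiteDimensional.mem_of_tendsto hl
    (Eventually.of_forall fun m => W.smul_mem _ (hqm _))
  have : V = 0 := (Submodule.disjoint_def.1 hW.disjoint) V hVl hVW
  simp [this] at hV

/-- A character that vanishes on the one parameter subgroups has countable image. -/
theorem countable_image {φ : A → ℝ} (hφ : ∀ a ∈ H, ∀ b ∈ H, φ (a * b) = φ a + φ b)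
    (h0 : ∀ V ∈ hH.lie, φ (exp V) = 0) : (φ '' H).Countable := by
  have := FiniteDimensional.proper_real A
  have hop : ∀ c : ℝ, IsOpen {h : H | φ h = c} := fun c => by
    refine isOpen_iff_eventually.2 fun a ha => ?_
    obtain ⟨b, hb, hab, hba⟩ := hH.inv a a.2
    have ht : Tendsto (fun h : H => b * (h : A)) (𝓝 a) (𝓝[H] 1) := by
      refine tendsto_nhdsWithin_iff.2 ⟨?_, Eventually.of_forall fun h => hH.mul _ hb _ h.2⟩
      rw [← hba]
      exact (continuous_const.mul continuous_subtype_val).tendsto a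
    filter_upwards [ht.eventually hH.eventually_exp] with h ⟨V, hV, he⟩
    have h1 := hφ a a.2 _ (hH.exp_mem hV)
    rw [h0 V hV, ← he, ← mul_assoc, hab, one_mul, add_zero] at h1
    exact h1.trans ha
  refine PairwiseDisjoint.countable_of_isOpen (s := fun c => {h : H | φ h = c})
    (fun c _ d _ hcd => Set.disjoint_left.2 fun h h1 h2 => hcd (h1.symm.trans h2))
    (fun c _ => hop c) ?_
  rintro _ ⟨a, ha, rfl⟩
  exact ⟨⟨a, ha⟩, rfl⟩

end IsGrp

end Pool.Agent.P.MP_d483fb_an.Z.Loop
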