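import Mathlib

/-!
A measurable equivariant family of closed cones over an ergodic map contains a fixed eigenvector.
Also: measurability of the set where a family of continuous equations has a solution in a
compact set.
-/

open MeasureTheory Set Filter Topology Metric

namespace Pool.Agent.P.MP_d483fb_an.Z.Loop

/-- The set of points where countably many equations have a common solution in a compact set. -/
theorem measurableSet_exists_compact {X P I : Type*} [MeasurableSpace X] [MetricSpace P]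
    [Countable I] {Q : Set P} (hQ : IsCompact Q) {S : Set X} (hS : MeasurableSet S)
    (g : I → X → P → ℝ) (hm : ∀ i, ∀ v ∈ Q, Measurable fun x => g i x v)
    (hc : ∀ i, ∀ x ∈ S, ContinuousOn (g i x) Q) :
    MeasurableSet {x | x ∈ S ∧ ∃ v ∈ Q, ∀ i, g i x v = 0} := by
  classical
  obtain ⟨D, hDQ, hDc, hD⟩ := hQ.isSeparable.exists_countable_dense_subset
  have : {x | x ∈ S ∧ ∃ v ∈ Q, ∀ i, g i x v = 0} = S ∩
      ⋂ p : Finset I × ℕ, ⋃ v ∈ D, ⋂ i ∈ p.1, {x | |g i x v| < 1 / ((p.2 : ℝ) + 1)} := by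
    ext x
    simp only [mem_ofPred_eq, mem_inter_iff, mem_iInter, mem_iUnion, exists_prop]
    refine and_congr_right fun hx => ⟨?_, fun h => ?_⟩
    · rintro ⟨v, hv, h0⟩ ⟨s, m⟩
      have he : ∀ᶠ w in 𝓝[Q] v, ∀ i ∈ s, |g i x w| < 1 / ((m : ℝ) + 1) := by
        rw [Filter.eventually_all_finset]
        intro i _
        have h1 : Tendsto (fun w => |g i x w|) (𝓝[Q] v) (𝓝 |g i x v|) := (hc i x hx v hv).abs
        refine h1.eventually (gt_mem_nhds ?_)
        rw [h0 i, abs_zero]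
        positivity
      have hne : (𝓝[D] v).NeBot := mem_closure_iff_nhdsWithin_neBot.1 (hD hv)
      obtain ⟨w, hw, hwD⟩ :=
        ((he.filter_mono (nhdsWithin_mono v hDQ)).and self_mem_nhdsWithin).exists
      exact ⟨w, hwD, hw⟩
    · by_contra hno
      push Not at hno
      have hcl : ∀ p : I × ℕ, IsClosed (Q ∩ {v | |g p.1 x v| ≤ 1 / ((p.2 : ℝ) + 1)}) := fun p =>
        (hc p.1 x hx).abs.preimage_isClosed_of_isClosed hQ.isClosed isClosed_Iic
      have hem : Q ∩ ⋂ p : I × ℕ, (Q ∩ {v | |g p.1 x v| ≤ 1 / ((p.2 : ℝ) + 1)}) = ∅ := by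
        rw [eq_empty_iff_forall_notMem]
        rintro v ⟨hv, h2⟩
        obtain ⟨i, hi⟩ := hno v hv
        obtain ⟨m, hm'⟩ := exists_nat_one_div_lt (abs_pos.2 hi)
        have := (mem_iInter.1 h2 (i, m)).2
        exact absurd this (not_le.2 hm')
      obtain ⟨t, ht⟩ := hQ.elim_finite_subfamily_closed _ hcl hem
      obtain ⟨v, hvD, hv⟩ := h (t.image Prod.fst, t.sup Prod.snd)
      refine (eq_empty_iff_forall_notMem.1 ht) v ⟨hDQ hvD, ?_⟩
      simp only [mem_iInter]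
      intro p hp
      refine ⟨hDQ hvD, (hv p.1 (Finset.mem_image_of_mem _ hp)).le.trans ?_⟩
      have : (p.2 : ℝ) ≤ (t.sup Prod.snd : ℕ) := by exact_mod_cast Finset.le_sup hp
      exact one_div_le_one_div_of_le (by positivity) (by linarith)
  rw [this]
  refine hS.inter (MeasurableSet.iInter fun p => MeasurableSet.biUnion hDc fun v hv =>
    Finset.measurableSet_biInter _ fun i _ => ?_)
  exact measurableSet_lt (hm i v (hDQ hv)).abs measurable_const

variable {X κ : Type*} [MeasurableSpace X] [Fintype κ]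

/-- Points near which the family accumulates with positive probability. -/
def supp (μ : Measure X) (K : X → Set (κ → ℝ)) : Set (κ → ℝ) :=
  {Y | ∀ r, 0 < r → μ {x | ∃ Z ∈ K x, dist Z Y ≤ r} ≠ 0}

theorem isClosed_supp (μ : Measure X) (K : X → Set (κ → ℝ)) : IsClosed (supp μ K) := by
  refine isClosed_of_closure_subset fun Y hY r hr => ?_
  obtain ⟨Y', hY', hd⟩ := Metric.mem_closure_iff.1 hY (r / 2) (by positivity)
  intro h0
  refine hY' (r / 2) (by positivity) (measure_mono_null ?_ h0)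
  rintro x ⟨Z, hZ, hZ'⟩
  refine ⟨Z, hZ, ?_⟩
  have := dist_triangle Z Y' Y
  rw [dist_comm Y' Y] at this
  linarith

theorem ae_subset_supp (μ : Measure X) (K : X → Set (κ → ℝ)) : ∀ᵐ x ∂μ, K x ⊆ supp μ K := by
  have h1 : ∀ Y : ((supp μ K)ᶜ : Set (κ → ℝ)), ∃ r, 0 < r ∧
      μ {x | ∃ Z ∈ K x, dist Z Y ≤ r} = 0 := fun Y => by
    have := Y.2
    simp only [supp, mem_compl_iff, mem_ofPred_eq, not_forall, not_not] at this
    obtain ⟨r, hr, h⟩ := this
    exact ⟨r, hr, h⟩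
  choose r hr h0 using h1
  obtain ⟨T, hT, hU⟩ := TopologicalSpace.isOpen_iUnion_countable
    (fun Y : ((supp μ K)ᶜ : Set (κ → ℝ)) => ball (Y : κ → ℝ) (r Y)) fun _ => isOpen_ball
  have h2 : ∀ᵐ x ∂μ, ∀ Y ∈ T, ¬ ∃ Z ∈ K x, dist Z Y ≤ r Y :=
    (ae_ball_iff hT).2 fun Y _ => measure_eq_zero_iff_ae_notMem.1 (h0 Y)
  filter_upwards [h2] with x hx Z hZ
  by_contra hn
  have : Z ∈ ⋃ Y ∈ T, ball (Y : κ → ℝ) (r Y) := by
    rw [hU]
    exact mem_iUnion.2 ⟨⟨Z, hn⟩, mem_ball_self (hr _)⟩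
  simp only [mem_iUnion] at this
  obtain ⟨Y, hY, hZY⟩ := this
  exact hx Y hY ⟨Z, hZ, (mem_ball.1 hZY).le⟩

theorem supp_map {μ : Measure X} {K : X → Set (κ → ℝ)} {a : X → X} (ha : MeasurePreserving a μ μ)
    (e : κ → ℝ) (heq : ∀ᵐ x ∂μ, ∀ Y ∈ K x, (fun i => e i * Y i) ∈ K (a x)) {Y : κ → ℝ}
    (hY : Y ∈ supp μ K) : (fun i => e i * Y i) ∈ supp μ K := by
  intro r hr h0
  have hC : 0 < ‖e‖ + 1 := by positivity
  refine hY (r / (‖e‖ + 1)) (by positivity) ?_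
  have h1 := ha.quasiMeasurePreserving.preimage_null h0
  refine measure_mono_null_ae ?_ h1
  filter_upwards [heq] with x hx
  rintro ⟨Z, hZ, hd⟩
  refine ⟨_, hx Z hZ, (dist_pi_le_iff hr.le).2 fun i => ?_⟩
  rw [Real.dist_eq, ← mul_sub, abs_mul]
  have h2 : |Z i - Y i| ≤ r / (‖e‖ + 1) := (dist_le_pi_dist Z Y i).trans hd
  have h3 : |e i| ≤ ‖e‖ + 1 := (norm_le_pi_norm e i).trans (by linarith)
  calc |e i| * |Z i - Y i| ≤ (‖e‖ + 1) * (r / (‖e‖ + 1)) := by gcongr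
    _ = r := by field_simp

/-- A measurable equivariant family of closed cones contains a fixed eigenvector. -/
theorem exists_const_vec {μ : Measure X} [IsProbabilityMeasure μ] {a : X → X} (ha : Ergodic a μ)
    (δ : κ → ℝ) (K : X → Set (κ → ℝ)) (hcl : ∀ᵐ x ∂μ, IsClosed (K x))
    (hcone : ∀ᵐ x ∂μ, ∀ c : ℝ, 0 < c → ∀ Y ∈ K x, c • Y ∈ K x)
    (hne : ∀ᵐ x ∂μ, ∃ Y ∈ K x, Y ≠ 0)
    (heq : ∀ᵐ x ∂μ, ∀ Y ∈ K x, (fun i => Real.exp (δ i) * Y i) ∈ K (a x))
    (hm : ∀ Q, IsCompact Q → NullMeasurableSet {x | ∃ Y ∈ K x, Y ∈ Q} μ) :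
    ∃ Y, Y ≠ 0 ∧ (∃ d, ∀ i, Y i ≠ 0 → δ i = d) ∧ ∀ᵐ x ∂μ, Y ∈ K x := by
  classical
  have hsub := ae_subset_supp μ K
  obtain ⟨x0, ⟨Y0, hY0, hY0'⟩, hx0⟩ := (hne.and hsub).exists
  obtain ⟨i0, hi0⟩ := Function.ne_iff.1 hY0'
  obtain ⟨j, hj, hmax⟩ := Finset.exists_max_image
    (Finset.univ.filter fun i => ∃ Y ∈ supp μ K, Y i ≠ 0) δ
    ⟨i0, Finset.mem_filter.2 ⟨Finset.mem_univ _, Y0, hx0 hY0, hi0⟩⟩
  obtain ⟨Y, hY, hYj⟩ := (Finset.mem_filter.1 hj).2
  have hle : ∀ Z ∈ supp μ K, ∀ i, Z i ≠ 0 → δ i ≤ δ j := fun Z hZ i hi =>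
    hmax i (Finset.mem_filter.2 ⟨Finset.mem_univ _, Z, hZ, hi⟩)
  have heq' : ∀ᵐ x ∂μ, ∀ Y ∈ K x, (fun i => Real.exp (δ i - δ j) * Y i) ∈ K (a x) := by
    filter_upwards [heq, ha.toMeasurePreserving.quasiMeasurePreserving.ae hcone] with x h1 h2 Z hZ
    have := h2 (Real.exp (-δ j)) (Real.exp_pos _) _ (h1 Z hZ)
    convert this using 1
    ext i
    simp only [Pi.smul_apply, smul_eq_mul, sub_eq_add_neg, Real.exp_add]
    ring
  have hit : ∀ n : ℕ, (fun i => Real.exp (δ i - δ j) ^ n * Y i) ∈ supp μ K := by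
    intro n
    induction n with
    | zero => simpa using hY
    | succ n ih =>
      have := supp_map ha.toMeasurePreserving _ heq' ih
      convert this using 2
      ring
  set Y1 : κ → ℝ := fun i => if δ i = δ j then Y i else 0 with hY1
  have hY1s : Y1 ∈ supp μ K := by
    refine (isClosed_supp μ K).mem_of_tendsto (b := atTop) ?_ (Eventually.of_forall hit)
    refine tendsto_pi_nhds.2 fun i => ?_
    by_cases h : δ i = δ j
    · simp [hY1, h]
    by_cases h0 : Y i = 0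
    · simp [hY1, h0]
    have hlt : Real.exp (δ i - δ j) < 1 :=
      Real.exp_lt_one_iff.2 (sub_neg.2 (lt_of_le_of_ne (hle Y hY i h0) h))
    have := (tendsto_pow_atTop_nhds_zero_of_lt_one (Real.exp_pos _).le hlt).mul_const (Y i)
    simpa [hY1, h] using this
  refine ⟨Y1, Function.ne_iff.2 ⟨j, by simpa [hY1] using hYj⟩, ⟨δ j, fun i hi => ?_⟩, ?_⟩
  · by_contra h
    exact hi (by simp [hY1, h])
  have hall : ∀ r, 0 < r → ∀ᵐ x ∂μ, ∃ Z ∈ K x, Z ∈ closedBall Y1 r := by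
    intro r hr
    rcases ha.ae_empty_or_univ_of_ae_le_preimage (hm _ (isCompact_closedBall Y1 r)) (by
      filter_upwards [heq', hsub] with x h1 h2
      rintro ⟨Z, hZ, hd⟩
      refine ⟨_, h1 Z hZ, (dist_pi_le_iff hr.le).2 fun i => ?_⟩
      have h3 : |Z i - Y1 i| ≤ r := (dist_le_pi_dist Z Y1 i).trans hd
      by_cases h : δ i = δ j
      · simpa [h, Real.dist_eq] using h3
      by_cases h0 : Z i = 0
      · simp [hY1, h, h0, hr.le]
      have hle1 : Real.exp (δ i - δ j) ≤ 1 :=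
        Real.exp_le_one_iff.2 (sub_nonpos.2 (hle Z (h2 hZ) i h0))
      simp only [hY1, h, if_false, sub_zero, Real.dist_eq] at h3 ⊢
      rw [abs_mul, abs_of_pos (Real.exp_pos _)]
      calc Real.exp (δ i - δ j) * |Z i| ≤ 1 * r := by gcongr
        _ = r := one_mul r) with h | h
    · exact absurd (ae_eq_empty.1 h) (hY1s r hr)
    · exact eventuallyEq_univ.1 h
  have h2 : ∀ᵐ x ∂μ, ∀ n : ℕ, ∃ Z ∈ K x, Z ∈ closedBall Y1 (1 / ((n : ℝ) + 1)) :=
    ae_all_iff.2 fun n => hall _ (by positivity)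
  filter_upwards [h2, hcl] with x hx hc
  rw [← hc.closure_eq, Metric.mem_closure_iff]
  intro ε hε
  obtain ⟨n, hn⟩ := exists_nat_one_div_lt hε
  obtain ⟨Z, hZ, hd⟩ := hx n
  exact ⟨Z, hZ, by rw [dist_comm]; exact (mem_closedBall.1 hd).trans_lt hn⟩

end Pool.Agent.P.MP_d483fb_an.Z.Loop
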