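import Pool.Agent.P.MP_d483fb_an.Z.Grp.Net
import Pool.Agent.P.MP_d483fb_an.Z.Lie.Mx0

/-!
The two triple factorisations of a unipotent matrix around a slope, and their compatibility with
the upper left block.
-/

open scoped Matrix Matrix.Norms.Operator Topology
open Set Filter NormedSpace

noncomputable section

namespace Pool.Agent.P.MP_d483fb_an.Z

namespace Wt

section Dec

variable {ι : Type} [Fintype ι] [DecidableEq ι] (w : Wt ι) (β : ℝ)

/-- The lower factor of `n = s q r`. -/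
def dq (n : Matrix ι ι ℝ) : Matrix ι ι ℝ := w.facR (Ici β) (w.facL (Iic β) n)

/-- The upper factor of `n = s q r`. -/
def dr (n : Matrix ι ι ℝ) : Matrix ι ι ℝ := w.facR (Iic β) n

/-- The middle factor of `n = s r q`. -/
def ds (n : Matrix ι ι ℝ) : Matrix ι ι ℝ := w.facL (Iic β) (w.facL (Ici β) n)

/-- The defect between the two middle factors. -/
def dD (n : Matrix ι ι ℝ) : Matrix ι ι ℝ := w.ds β (w.dq β n * w.dr β n)

theorem polyM_dq : PolyM (w.dq β) := (polyM_facR (cut_Ici β)).comp (polyM_facL (cut_Iic β))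

theorem polyM_dr : PolyM (w.dr β) := polyM_facR (cut_Iic β)

theorem polyM_ds : PolyM (w.ds β) := (polyM_facL (cut_Iic β)).comp (polyM_facL (cut_Ici β))

theorem polyM_dD : PolyM (w.dD β) := (w.polyM_ds β).comp ((w.polyM_dq β).mul (w.polyM_dr β))

variable {w β} {s q r n : Matrix ι ι ℝ}

theorem Nil.ds (hn : w.Nil Set.univ n) : w.Nil {β} (w.ds β n) := by
  refine ((hn.facL (cut_Ici β)).facL_inter (cut_Iic β) ordConnected_Ici).mono ?_
  rw [Ici_inter_Iic, Icc_self]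

theorem Nil.dq (hn : w.Nil Set.univ n) : w.Nil (Iio β) (w.dq β n) := by
  simpa [Wt.dq] using (hn.facL (cut_Iic β)).facR (cut_Ici β)

theorem Nil.dr (hn : w.Nil Set.univ n) : w.Nil (Ioi β) (w.dr β n) := by
  simpa [Wt.dr] using hn.facR (cut_Iic β)

theorem Nil.dD (hn : w.Nil Set.univ n) : w.Nil {β} (w.dD β n) :=
  (Nil.mul ordConnected_univ hn.dq.univ hn.dr.univ).ds

theorem dec_sqr (hs : w.Nil {β} s) (hq : w.Nil (Iio β) q) (hr : w.Nil (Ioi β) r) :
    w.dq β (s * q * r) = q ∧ w.dr β (s * q * r) = r ∧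
      w.ds β (s * q * r) = s * w.ds β (q * r) := by
  have h1 : w.Nil (Iic β) s := hs.mono (by simp)
  have h2 : w.Nil (Ici β) s := hs.mono (by simp)
  have h3 : w.Nil (Iic β) (s * q) := Nil.mul ordConnected_Iic h1 (hq.mono Iio_subset_Iic_self)
  have h4 : w.Nil (Iic β)ᶜ r := by simpa using hr
  have h5 : w.Nil (Ici β)ᶜ q := by simpa using hq
  have h6 := Nil.mul ordConnected_univ hq.univ hr.univ
  refine ⟨?_, facR_mul (cut_Iic β) h3 h4, ?_⟩
  · rw [dq, facL_mul (cut_Iic β) h3 h4, facR_mul (cut_Ici β) h2 h5]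
  · rw [ds, ds, mul_assoc, facL_left_mul (cut_Ici β) h2 h6,
      facL_left_mul (cut_Iic β) h1 (h6.facL (cut_Ici β))]

theorem dec_srq (hs : w.Nil {β} s) (hq : w.Nil (Iio β) q) (hr : w.Nil (Ioi β) r) :
    w.dq β (s * r * q) = w.dq β (r * q) ∧ w.dr β (s * r * q) = w.dr β (r * q) ∧
      w.ds β (s * r * q) = s := by
  have h1 : w.Nil (Iic β) s := hs.mono (by simp)
  have h2 : w.Nil (Ici β) s := hs.mono (by simp)
  have h3 : w.Nil (Ici β) (s * r) := Nil.mul ordConnected_Ici h2 (hr.mono Ioi_subset_Ici_self)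
  have h4 : w.Nil (Iic β)ᶜ r := by simpa using hr
  have h5 : w.Nil (Ici β)ᶜ q := by simpa using hq
  have h6 := Nil.mul ordConnected_univ hr.univ hq.univ
  refine ⟨?_, ?_, ?_⟩
  · rw [dq, dq, mul_assoc, facL_left_mul (cut_Iic β) h1 h6,
      facR_left_mul (cut_Ici β) h2 (h6.facL (cut_Iic β))]
  · rw [dr, dr, mul_assoc, facR_left_mul (cut_Iic β) h1 h6]
  · rw [ds, facL_mul (cut_Ici β) h3 h5, facL_mul (cut_Iic β) h1 h4]

theorem dD_mul (hq : w.Nil (Iio β) q) (hr : w.Nil (Ioi β) r) :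
    w.dD β (q * r) = w.ds β (q * r) := by
  have := dec_sqr Nil.one hq hr
  rw [one_mul] at this
  rw [dD, this.1, this.2.1]

theorem dD_one : w.dD β 1 = 1 := by
  have h1 := dD_mul (w := w) (β := β) Nil.one Nil.one
  have h2 := (dec_srq (w := w) (β := β) Nil.one Nil.one Nil.one).2.2
  simp only [mul_one] at h1 h2
  rw [h1, h2]

theorem Nil.exists_srq (hn : w.Nil Set.univ n) {S : Set (Matrix ι ι ℝ)} (hS : w.DilClosed S)
    (hnS : n ∈ S) : ∃ r q, w.Nil (Ioi β) r ∧ w.Nil (Iio β) q ∧ r ∈ S ∧ q ∈ S ∧ w.ds β n ∈ S ∧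
      w.ds β n * r * q = n := by
  have h1 := hn.facL (cut_Ici β)
  have h2 := hS.facL_mem (cut_Ici β) hn hnS
  refine ⟨w.facR (Iic β) (w.facL (Ici β) n), w.facR (Ici β) n, by simpa using h1.facR (cut_Iic β),
    by simpa using hn.facR (cut_Ici β), hS.facR_mem (cut_Iic β) h1 h2,
    hS.facR_mem (cut_Ici β) hn hnS, hS.facL_mem (cut_Iic β) h1 h2, ?_⟩
  rw [Wt.ds, h1.facL_mul_facR (cut_Iic β), hn.facL_mul_facR (cut_Ici β)]

theorem DilClosed.dD_mem {S : Set (Matrix ι ι ℝ)} (hS : w.DilClosed S) (hn : w.Nil Set.univ n)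
    (hnS : n ∈ S) : w.dD β n ∈ S := by
  have h1 := Nil.mul ordConnected_univ (hn.dq (β := β)).univ (hn.dr (β := β)).univ
  have h2 : w.dq β n * w.dr β n ∈ S := hS.mul _ (hS.facR_mem (cut_Ici β) (hn.facL (cut_Iic β))
    (hS.facL_mem (cut_Iic β) hn hnS)) _ (hS.facR_mem (cut_Iic β) hn hnS)
  exact hS.facL_mem (cut_Iic β) (h1.facL (cut_Ici β)) (hS.facL_mem (cut_Ici β) h1 h2)

variable (w) in
theorem exists_N_small {U : Set (Matrix ι ι ℝ)} (hU : U ∈ 𝓝 (1 : Matrix ι ι ℝ)) :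
    ∃ r : ℝ, 0 < r ∧ ∀ n, w.Nil Set.univ n → w.N n < r → n ∈ U := by
  obtain ⟨ε, hε, hb⟩ := Metric.mem_nhds_iff.1 hU
  have h1 : Tendsto (fun r : ℝ => (Fintype.card ι : ℝ) * (1 ^ w.tp * r ^ w.gi⁻¹)) (𝓝 0) (𝓝 0) := by
    have h2 := (Real.continuousAt_rpow_const 0 _ (Or.inr (inv_pos.2 w.gi_pos).le)).tendsto
    rw [Real.zero_rpow (inv_pos.2 w.gi_pos).ne'] at h2
    have h3 := (h2.const_mul ((1 : ℝ) ^ w.tp)).const_mul (Fintype.card ι : ℝ)
    rwa [mul_zero, mul_zero] at h3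
  obtain ⟨δ, hδ, h3⟩ := Metric.eventually_nhds_iff.1 (h1.eventually (gt_mem_nhds hε))
  refine ⟨min δ 1, by positivity, fun n hn hr => hb ?_⟩
  rw [mem_ball_iff_norm]
  refine (hn.norm_sub_one_le le_rfl (hr.le.trans (min_le_right _ _))).trans_lt (h3 ?_)
  rw [Real.dist_eq, sub_zero, abs_of_nonneg (w.N_nonneg n)]
  exact hr.trans_le (min_le_left _ _)

end Dec

section Blk

variable {ι κ : Type} [Fintype ι] [DecidableEq ι] [Fintype κ] [DecidableEq κ]

/-- The weights of the upper left block. -/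
def inl (w : Wt (ι ⊕ κ)) : Wt ι where
  wa i := w.wa (.inl i)
  wb i := w.wb (.inl i)
  hab _ _ h := w.hab _ _ h

variable {w : Wt (ι ⊕ κ)} {J U : Set ℝ} {β : ℝ} {n a b : Matrix (ι ⊕ κ) (ι ⊕ κ) ℝ}

omit [Fintype ι] [Fintype κ] in
theorem Nil.blk (hn : w.Nil J n) : w.inl.Nil J n.toBlocks₁₁ := by
  intro i j hij
  refine hn (.inl i) (.inl j) ?_
  simpa [Matrix.toBlocks₁₁, Matrix.one_apply] using hij

omit [DecidableEq ι] [DecidableEq κ] in
theorem blk_mul (hb : b.toBlocks₂₁ = 0) : (a * b).toBlocks₁₁ = a.toBlocks₁₁ * b.toBlocks₁₁ := by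
  ext i j
  have : ∀ m, b (.inr m) (.inl j) = 0 := fun m => congrFun (congrFun hb m) j
  simp [Matrix.toBlocks₁₁, Matrix.mul_apply, this]

variable {S : Set (Matrix (ι ⊕ κ) (ι ⊕ κ) ℝ)}

theorem blk_fac (hS : w.DilClosed S) (hb : ∀ T ∈ S, T.toBlocks₂₁ = 0) (hU : Cut U)
    (hn : w.Nil J n) (hnS : n ∈ S) : (w.facL U n).toBlocks₁₁ = w.inl.facL U n.toBlocks₁₁ ∧
      (w.facR U n).toBlocks₁₁ = w.inl.facR U n.toBlocks₁₁ := by
  have h := blk_mul (a := w.facL U n) (hb _ (hS.facR_mem hU hn hnS))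
  rw [hn.facL_mul_facR hU] at h
  rw [h]
  exact ⟨(facL_mul hU (hn.facL hU).blk (hn.facR hU).blk).symm,
    (facR_mul hU (hn.facL hU).blk (hn.facR hU).blk).symm⟩

theorem blk_dD (hS : w.DilClosed S) (hb : ∀ T ∈ S, T.toBlocks₂₁ = 0) (hn : w.Nil Set.univ n)
    (hnS : n ∈ S) : (w.dD β n).toBlocks₁₁ = w.inl.dD β n.toBlocks₁₁ := by
  have h1 := Nil.mul ordConnected_univ (hn.dq (β := β)).univ (hn.dr (β := β)).univ
  have h3 := hS.facR_mem (cut_Iic β) hn hnS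
  have h4 := hS.facL_mem (cut_Iic β) hn hnS
  have h2 : w.dq β n * w.dr β n ∈ S :=
    hS.mul _ (hS.facR_mem (cut_Ici β) (hn.facL (cut_Iic β)) h4) _ h3
  rw [dD, ds, (blk_fac hS hb (cut_Iic β) (h1.facL (cut_Ici β))
    (hS.facL_mem (cut_Ici β) h1 h2)).1, (blk_fac hS hb (cut_Ici β) h1 h2).1, dr, blk_mul (hb _ h3), dq,
    (blk_fac hS hb (cut_Ici β) (hn.facL (cut_Iic β)) h4).2, (blk_fac hS hb (cut_Iic β) hn hnS).1,
    (blk_fac hS hb (cut_Iic β) hn hnS).2]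
  rfl

theorem blk_exp (hb : b.toBlocks₂₁ = 0) : (exp b).toBlocks₁₁ = exp b.toBlocks₁₁ := by
  let L : Matrix (ι ⊕ κ) (ι ⊕ κ) ℝ →ₗ[ℝ] Matrix ι ι ℝ :=
    { toFun := fun a => a.toBlocks₁₁, map_add' := fun _ _ => rfl, map_smul' := fun _ _ => rfl }
  have h1 := (exp_series_hasSum_exp' (𝕂 := ℝ) b).mapL (LinearMap.toContinuousLinearMap L)
  have h2 : ∀ m : ℕ, (b ^ m).toBlocks₁₁ = b.toBlocks₁₁ ^ m := fun m => by
    induction m with
    | zero =>
      ext i j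
      simp [Matrix.toBlocks₁₁, Matrix.one_apply]
    | succ m ih => rw [pow_succ, blk_mul hb, ih, pow_succ]
  have h3 := exp_series_hasSum_exp' (𝕂 := ℝ) b.toBlocks₁₁
  simp only [← h2] at h3
  exact h1.unique h3

end Blk

end Wt

theorem entry_eq_zero {ι : Type} [Fintype ι] [DecidableEq ι] {V : Matrix ι ι ℝ} {i j : ι}
    (h : ∀ t : ℝ, exp (t • V) i j = (1 : Matrix ι ι ℝ) i j) : V i j = 0 := by
  let L : Matrix ι ι ℝ →ₗ[ℝ] ℝ :=
    { toFun := fun a => a i j, map_add' := fun _ _ => rfl, map_smul' := fun _ _ => rfl }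
  have h1 := (LinearMap.toContinuousLinearMap L).hasFDerivAt.comp_hasDerivAt (0 : ℝ)
    (hasDerivAt_exp_smul_const (𝕂 := ℝ) V 0)
  have h3 := h1.unique ((hasDerivAt_const (0 : ℝ) ((1 : Matrix ι ι ℝ) i j)).congr_of_eventuallyEq
    (Eventually.of_forall h))
  rw [zero_smul, exp_zero, one_mul] at h3
  exact h3

theorem exp_mul_eq_self {A : Type} [NormedRing A] [NormedAlgebra ℝ A] [CompleteSpace A] {V E : A}
    (h : V * E = 0) : exp V * E = E := by
  refine ((exp_series_hasSum_exp' (𝕂 := ℝ) V).mul_right E).unique ?_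
  convert hasSum_single 0 fun m hm => ?_ using 1
  · simp
  · obtain ⟨m, rfl⟩ := Nat.exists_eq_succ_of_ne_zero hm
    rw [smul_mul_assoc, pow_succ, mul_assoc, h, mul_zero, smul_zero]

end Pool.Agent.P.MP_d483fb_an.Z
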