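import Pool.Agent.P.MP_d483fb_an.Z.Loop.Prod
import Pool.Agent.P.MP_d483fb_an.Z.Loop.Cartan
import Pool.Agent.P.MP_d483fb_an.Z.Lie.Unip

/-!
The stabiliser of the middle leafwise measure: group structure, equivariance, and the action on
the leaves of its elements that fix the origin of the fibre.
-/

open scoped Matrix Matrix.Norms.Operator InnerProductSpace RealInnerProductSpace Topology ENNReal
open MeasureTheory ProbabilityTheory NormedSpace Filter Set

noncomputable section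

namespace Pool.Agent.P.MP_d483fb_an.Z

theorem Wt.Tri.tendsto_lev {ι : Type} [Fintype ι] [DecidableEq ι] {w : Wt ι} {T : Matrix ι ι ℝ}
    (h : w.Tri T) : Tendsto (fun s : ℝ => w.dil (-s) 0 * T * w.dil (- -s) (-0)) atTop
      (𝓝 (w.lev T)) := by
  refine tendsto_pi_nhds.2 fun i => tendsto_pi_nhds.2 fun j => ?_
  simp only [Wt.dil_conj_apply, Wt.lev_apply, zero_mul, add_zero]
  split_ifs with h1
  · simp [h1]
  by_cases h0 : T i j = 0
  · simp [h0]
  have h2 : 0 < w.wa i - w.wa j := sub_pos.2 (lt_of_le_of_ne (h i j h0) (Ne.symm h1))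
  have h3 := (Real.tendsto_exp_atBot.comp
    (tendsto_neg_atTop_atBot.atBot_mul_const h2)).mul_const (T i j)
  rwa [zero_mul] at h3

theorem Loop.Prj.conj {A : Type*} [NormedRing A] [MeasurableSpace A] [BorelSpace A]
    {m : Measure A} {h l l' : A} (hp : Loop.Prj m h) (e : l' * l = 1) (c : ℝ≥0∞) :
    Loop.Prj (c • m.map fun s => l * s * l') (l * h * l') := by
  obtain ⟨d, d0, dt, hd⟩ := hp
  refine ⟨d, d0, dt, ?_⟩
  have : ((fun s => s * (l * h * l')) ∘ fun s => l * s * l') =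
      (fun s => l * s * l') ∘ fun s => s * h := by
    ext s
    simp only [Function.comp_apply, mul_assoc]
    rw [← mul_assoc l' l, e, one_mul]
  rw [Measure.map_smul, Measure.map_map (by fun_prop) (by fun_prop), this,
    ← Measure.map_map (by fun_prop) (by fun_prop), hd, Measure.map_smul, smul_comm]

namespace GeoPre

variable {G : Type} [Group G] [TopologicalSpace G] [IsTopologicalGroup G] {n k : ℕ}
  {D : Std G n k} {B : Type} [TopologicalSpace B] [MeasurableSpace B] [MulAction G B] {X : Type}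
  [MetricSpace X] [MeasurableSpace X] [MulAction G X] {μ : Measure X} {κ : Type} [Fintype κ]
  [DecidableEq κ] {S : GeoPre D B X μ κ} {x y : X} {β : ℝ}
  {a b h V : Matrix (Fin n ⊕ κ) (Fin n ⊕ κ) ℝ}

section Basic

omit [IsTopologicalGroup G]

theorem l_mem (h : S.R x y) : S.toPre.l x y ∈ S.Gen :=
  S.Gen_cl _ (Pre.isUnit_l h) (mem_closure_of_tendsto (S.T_tri x y h).tendsto_lev
    (Eventually.of_forall fun _ =>
      S.Gen.mul_mem (S.Gen.mul_mem (S.dil_mem _ _) (S.T_mem x y h)) (S.dil_mem _ _)))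

theorem n_mem (h : S.R x y) : S.toPre.n x y ∈ S.Gen :=
  S.Gen.mul_mem (S.T_mem x y h) (S.Gen_inv _ (l_mem h))

variable (S) in
/-- The column of the origin of the fibre is trivial. -/
def Col (a : Matrix (Fin n ⊕ κ) (Fin n ⊕ κ) ℝ) : Prop :=
  ∀ i, a i (.inr S.e0) = (1 : Matrix (Fin n ⊕ κ) (Fin n ⊕ κ) ℝ) i (.inr S.e0)

theorem Col.mul_apply (hb : S.Col b) (a : Matrix (Fin n ⊕ κ) (Fin n ⊕ κ) ℝ) (i : Fin n ⊕ κ) :
    (a * b) i (.inr S.e0) = a i (.inr S.e0) := by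
  conv_rhs => rw [← mul_one a]
  simp only [Matrix.mul_apply, hb _]

theorem wa_e0 : S.w.wa (.inr S.e0) = 0 := by rw [S.wa_eq, S.om_e0, inner_zero_left]

theorem col_of_lev (ha : a ∈ S.Gen) (hl : S.w.Lev a) : S.Col a := by
  rintro (i | m)
  · rw [Matrix.one_apply_ne (by simp)]
    exact congrFun (congrFun (S.Gen_blk a ha).1 i) S.e0
  by_cases hm : m = S.e0
  · rw [hm, S.Gen_e0 a ha, Matrix.one_apply_eq]
  · rw [Matrix.one_apply_ne (by simpa using hm)]
    by_contra h0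
    exact (S.wa_pos m hm).ne' ((hl _ _ h0).trans wa_e0)

theorem col_exp (hV : ∀ i, V i (.inr S.e0) = 0) : S.Col (exp V) := by
  set e : Matrix (Fin n ⊕ κ) (Fin n ⊕ κ) ℝ := Matrix.single (Sum.inr S.e0) (Sum.inr S.e0) 1
    with he
  have h0 : ∀ (M : Matrix (Fin n ⊕ κ) (Fin n ⊕ κ) ℝ) i j,
      (M * e) i j = if j = Sum.inr S.e0 then M i (Sum.inr S.e0) else 0 := by
    intro M i j
    rw [he, Matrix.mul_apply, Finset.sum_eq_single (Sum.inr S.e0)]
    · simp [Matrix.single, eq_comm]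
    · intro c _ hc
      simp [Matrix.single, Ne.symm hc]
    · simp
  have h1 : V * e = 0 := by
    ext i j
    simp [h0, hV]
  intro i
  have h3 : exp V * e = e := exp_mul_eq_self (A := Matrix (Fin n ⊕ κ) (Fin n ⊕ κ) ℝ) h1
  have h2 := h0 (exp V) i (Sum.inr S.e0)
  rw [h3, if_pos rfl] at h2
  rw [← h2, he]
  simp [Matrix.single, Matrix.one_apply, eq_comm]

theorem wa_inl (i j : Fin n) :
    S.w.wa (.inl i) - S.w.wa (.inl j) = ⟪D.lam i - D.lam j, S.Ha⟫ := by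
  rw [S.wa_eq, S.wa_eq, S.om_inl, S.om_inl, inner_sub_left]

variable (S β) in
/-- The unipotent elements of the structure group with slope `β`. -/
def Gam : Set (Matrix (Fin n ⊕ κ) (Fin n ⊕ κ) ℝ) := {T | T ∈ S.Gen ∧ S.w.Nil {β} T}

variable (S) in
theorem dilClosed : S.w.DilClosed {T | T ∈ S.Gen ∧ S.w.Nil univ T} :=
  Wt.DilClosed.of_submonoid S.Gen S.Gen_inv S.Gen_cl S.dil_mem

theorem isClosed_Gam : IsClosed (S.Gam β) := by
  have : S.Gam β = {T | T ∈ S.Gen ∧ S.w.Nil univ T} ∩ {T | S.w.Nil {β} T} :=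
    Set.ext fun T => ⟨fun h => ⟨⟨h.1, h.2.univ⟩, h.2⟩, fun h => ⟨h.1.1, h.2⟩⟩
  rw [this]
  exact S.dilClosed.closed.inter (S.w.isClosed_Nil _)

/-- The right projective stabiliser of the leafwise measure. -/
def HH (o : S.toPre.Leafwise {β}) (x : X) : Set (Matrix (Fin n ⊕ κ) (Fin n ⊕ κ) ℝ) :=
  {h | h ∈ S.Gam β ∧ Loop.Prj (o.nu x) h}

variable {o : S.toPre.Leafwise {β}}

theorem isGrp_HH (hx : x ∈ o.X1) : Loop.IsGrp (HH o x) where
  closed := by
    have := o.finite_nu hx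
    exact Loop.isClosed_prj (o.nu_ne_zero hx) isClosed_Gam (h := fun v => v) (h' := fun v => v⁻¹)
      continuousOn_id (S.w.continuousOn_inv_Nil.mono fun _ h => h.2.univ) fun v hv => hv.2.mul_inv
  one := ⟨⟨S.Gen.one_mem, Wt.Nil.one⟩, Loop.Prj.one _⟩
  mul a ha b hb := ⟨⟨S.Gen.mul_mem ha.1.1 hb.1.1, ha.1.2.mul ordConnected_singleton hb.1.2⟩,
    ha.2.mul hb.2⟩
  inv a ha := ⟨a⁻¹, ⟨⟨S.Gen_inv a ha.1.1, ha.1.2.inv ordConnected_singleton⟩,
    ha.2.inv ha.1.2.mul_inv⟩, ha.1.2.mul_inv, ha.1.2.inv_mul⟩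

theorem HH_equiv (hx : x ∈ o.X1) (hh : h ∈ HH o x) :
    S.L (1, 0) x * h * (S.L (1, 0) x)⁻¹ ∈ HH o (S.f (1, 0) x) := by
  have h0 := o.sub1 hx
  have hu := Pre.isUnit_L h0 (1, 0)
  refine ⟨⟨S.Gen.mul_mem (S.Gen.mul_mem (S.L_mem _ x h0) hh.1.1) (S.Gen_inv _ (S.L_mem _ x h0)),
    hh.1.2.conj_inv (S.L_lev _ x h0) hu⟩, ?_⟩
  obtain ⟨c, -, -, hc⟩ := o.lw.equiv x hx
  have : o.nu (S.f (1, 0) x) = c • (o.nu x).map fun s => S.L (1, 0) x * s * (S.L (1, 0) x)⁻¹ := by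
    change (o.om (S.toPre.aE x)).map _ = _
    rw [hc, Measure.map_smul, Pre.Leafwise.nu, Measure.map_map (S.toPre.measurable_n_right _)
      S.toPre.aE.measurable, Measure.map_map (by fun_prop) (S.toPre.measurable_n_right _)]
    exact congrArg _ (Measure.map_congr ((o.lw.carried x hx).mono fun y hy =>
      Pre.n_f hy.2.1 (1, 0)))
  rw [this]
  exact hh.2.conj (Matrix.nonsing_inv_mul _ hu) c

theorem lie_entry (hV : ∀ t : ℝ, exp (t • V) ∈ S.Gam β) {i j : Fin n ⊕ κ} (h : V i j ≠ 0) :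
    S.w.wa j < S.w.wa i ∧ S.w.slope i j = β := by
  by_contra hn
  refine h (entry_eq_zero fun t => ?_)
  by_contra h1
  exact hn ((hV t).2 i j (by rwa [Matrix.sub_apply, sub_ne_zero]))

theorem lie_blk21 (hV : ∀ t : ℝ, exp (t • V) ∈ S.Gam β) : V.toBlocks₂₁ = 0 := by
  ext m i
  refine entry_eq_zero (i := Sum.inr m) (j := Sum.inl i) fun t => ?_
  rw [Matrix.one_apply_ne (by simp)]
  exact congrFun (congrFun (S.Gen_blk _ (hV t).1).2.1 m) i

theorem lie_blk12 (hV : ∀ t : ℝ, exp (t • V) ∈ S.Gam β) (i : Fin n) (m : κ) :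
    V (.inl i) (.inr m) = 0 := by
  refine entry_eq_zero fun t => ?_
  rw [Matrix.one_apply_ne (by simp)]
  exact congrFun (congrFun (S.Gen_blk _ (hV t).1).1 i) m

theorem blk_exp_smul (hV : ∀ t : ℝ, exp (t • V) ∈ S.Gam β) (t : ℝ) :
    (exp (t • V)).toBlocks₁₁ = exp (t • V.toBlocks₁₁) :=
  Wt.blk_exp (b := t • V) (by
    change t • V.toBlocks₂₁ = 0
    rw [lie_blk21 hV, smul_zero])

end Basic

theorem blk_mem_g (hV : ∀ t : ℝ, exp (t • V) ∈ S.Gam β) : V.toBlocks₁₁ ∈ D.g :=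
  D.mem_g_iff.2 fun t => by
    rw [← blk_exp_smul hV]
    exact (S.Gen_blk _ (hV t).1).2.2

theorem blk_mem_np (hV : ∀ t : ℝ, exp (t • V) ∈ S.Gam β) : V.toBlocks₁₁ ∈ D.np S.Ha :=
  ⟨blk_mem_g hV, fun i j hij => by
    rw [mem_ofPred_eq, ← wa_inl (S := S), sub_pos]
    exact (lie_entry hV (i := Sum.inl i) (j := Sum.inl j) hij).1⟩

theorem blk_n (h : S.R x y) : (S.toPre.n x y).toBlocks₁₁ = (S.T x y).toBlocks₁₁ := by
  obtain ⟨Y, hY, he, -⟩ := S.P0 x y h
  have h1 := D.one_sub_exp_mem (Std.pos_half S.Ha) (neg_mem hY.2)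
  have h2 : (S.toPre.l x y).toBlocks₁₁ = 1 := by
    ext i j
    change S.w.lev (S.T x y) (.inl i) (.inl j) = _
    rw [Wt.lev_apply]
    split_ifs with h3
    · by_contra h4
      have h5 := h1 i j (by
        rw [← he, Matrix.sub_apply, sub_ne_zero]
        exact Ne.symm h4)
      rw [mem_ofPred_eq, ← wa_inl (S := S), h3, sub_self] at h5
      exact lt_irrefl _ h5
    · exact (Matrix.one_apply_ne fun e => h3 (by rw [e])).symm
  rw [← Pre.n_mul_l h, Wt.blk_mul (S.Gen_blk _ (l_mem h)).2.1, h2, mul_one]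

theorem map_eq_of_mem [StandardBorelSpace X] [MeasurableConstSMul G X]
    {o : S.toPre.Leafwise {β}} (hx : x ∈ o.X1) (hh : h ∈ HH o x) (hc : S.Col h) {Y : Mat n}
    (hY : Y ∈ D.np S.Ha) (hb : h.toBlocks₁₁ = exp Y) :
    ∃ c : ℝ≥0∞, c ≠ 0 ∧ c ≠ ∞ ∧ (o.om x).map (fun y => D.ex (-Y) • y) = c • o.om x := by
  obtain ⟨c, c0, ct, he⟩ := hh.2
  refine ⟨c, c0, ct, ?_⟩
  have mn := S.toPre.measurable_n_right x
  set C : Set X := {y | y ∈ o.X1 ∧ S.toPre.RJ {β} x y} with hC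
  have mC : MeasurableSet C :=
    o.lw.meas.inter (Pre.measurableSet_RJ_comp _ measurable_const measurable_id)
  have inj : InjOn (S.toPre.n x) C := fun y hy z hz e => Pre.eq_of_n_eq hy.2.1 hz.2.1 e
  have mI : ∀ E, MeasurableSet E → MeasurableSet (S.toPre.n x '' (E ∩ C)) := fun E hE =>
    (hE.inter mC).image_of_measurable_injOn mn (inj.mono inter_subset_right)
  have hI : ∀ E y, y ∈ C → (S.toPre.n x y ∈ S.toPre.n x '' (E ∩ C) ↔ y ∈ E) := fun E y hy =>
    ⟨fun ⟨z, hz, e⟩ => inj hz.2 hy e ▸ hz.1, fun h => ⟨y, ⟨h, hy⟩, rfl⟩⟩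
  have h1 : ∀ᵐ s ∂o.nu x, s ∈ S.toPre.n x '' (univ ∩ C) :=
    (ae_map_iff mn.aemeasurable (mI _ MeasurableSet.univ)).2
      ((o.lw.carried x hx).mono fun y hy => (hI _ y hy).2 trivial)
  have h2 : ∀ᵐ s ∂(o.nu x).map (· * h), s ∈ S.toPre.n x '' (univ ∩ C) := by
    rw [he]
    exact Measure.ae_smul_measure h1 c
  have h3 : ∀ᵐ y ∂o.om x, D.ex (-Y) • y ∈ C ∧
      S.toPre.n x (D.ex (-Y) • y) = S.toPre.n x y * h := by
    filter_upwards [o.lw.carried x hx, ae_of_ae_map mn.aemeasurable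
      (ae_of_ae_map (by fun_prop) h2)] with y hy ⟨z, hz, e⟩
    have : z = D.ex (-Y) • y := S.P1 x y z hy.2.1 hz.2.2.1 (fun m => by
      rw [← Pre.n_mul_l hy.2.1, ← Pre.n_mul_l hz.2.2.1,
        (col_of_lev (l_mem hy.2.1) (S.toPre.l_lev _ _)).mul_apply,
        (col_of_lev (l_mem hz.2.2.1) (S.toPre.l_lev _ _)).mul_apply, e, hc.mul_apply]) Y hY (by
      rw [← blk_n hy.2.1, ← blk_n hz.2.2.1, e, Wt.blk_mul (S.Gen_blk _ hh.1.1).2.1, hb])
    rw [← this]
    exact ⟨hz.2, e⟩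
  ext E hE
  have h4 := congrArg (fun m : Measure _ => m (S.toPre.n x '' (E ∩ C))) he
  simp only [Measure.smul_apply, smul_eq_mul] at h4 ⊢
  rw [Measure.map_apply (by fun_prop) (mI E hE), Pre.Leafwise.nu,
    Measure.map_apply mn ((measurable_mul_const h) (mI E hE)), Measure.map_apply mn (mI E hE)] at h4
  rw [Measure.map_apply (measurable_const_smul _) hE]
  convert h4 using 1
  · refine measure_congr (eventuallyEq_set.2 (h3.mono fun y hy => ?_))
    simp only [mem_preimage]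
    rw [← hy.2, hI E _ hy.1]
  · congr 1
    exact measure_congr (eventuallyEq_set.2 ((o.lw.carried x hx).mono fun y hy =>
      (hI E y hy).symm))

end GeoPre

end Pool.Agent.P.MP_d483fb_an.Z
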