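import Pool.Agent.P.MP_d483fb_an.Z.LSB.LeafDefs

/-!
A measurable bijection which preserves almost every leafwise measure up to a scalar preserves the
ambient measure (mass transport).
-/

open MeasureTheory ProbabilityTheory Set Filter Function
open scoped ENNReal

namespace Pool.Agent.P.MP_d483fb_an.Z.Loop

variable {X : Type*} [MeasurableSpace X] {μ : Measure X} {a : X ≃ᵐ X} {R : X → X → Prop}
  {N : X → X → ℝ} {om : Kernel X X} {X1 : Set X}

/-- The mass that `om x` gives to the unit ball around `y`. -/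
noncomputable def cc (om : Kernel X X) (N : X → X → ℝ) (x y : X) : ℝ≥0∞ := om x {w | N y w < 1}

/-- The normalised indicator of the unit ball. -/
noncomputable def ph (om : Kernel X X) (N : X → X → ℝ) (x y : X) : ℝ≥0∞ :=
  {w | N y w < 1}.indicator (fun _ => 1) x * (cc om N x y)⁻¹

theorem measurable_cc [IsSFiniteKernel om] (hN : Measurable (uncurry N)) :
    Measurable (uncurry (cc om N)) := by
  have h : MeasurableSet {p : (X × X) × X | N p.1.2 p.2 < 1} :=
    measurableSet_lt (hN.comp (measurable_fst.snd.prodMk measurable_snd)) measurable_const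
  exact Kernel.measurable_kernel_prodMk_left (κ := om.prodMkRight X) h

theorem measurable_ph [IsSFiniteKernel om] (hN : Measurable (uncurry N)) :
    Measurable (uncurry (ph om N)) := by
  refine Measurable.mul ?_ (measurable_cc hN).inv
  have h : MeasurableSet {p : X × X | N p.2 p.1 < 1} :=
    measurableSet_lt (hN.comp measurable_swap) measurable_const
  exact measurable_const.indicator h

theorem measurableSet_ball (hN : Measurable (uncurry N)) (y : X) (r : ℝ) :
    MeasurableSet {w | N y w < r} :=
  measurableSet_lt (hN.comp (measurable_const.prodMk measurable_id)) measurable_const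

theorem cc_mul (h : IsLeafwise μ a R N om X1) {x y : X} (hx : x ∈ X1) (hy : y ∈ X1) (hR : R y x) :
    cc om N y x * cc om N x y = 1 := by
  have h1 := (h.prop y hy x hx hR).2.2
  have h2 := h.norm y hy
  rw [h1, Measure.smul_apply, smul_eq_mul] at h2
  exact h2

theorem lintegral_eq_ph (h : IsLeafwise μ a R N om X1) (hN : Measurable (uncurry N))
    {G : X → ℝ≥0∞} (hG : Measurable G) :
    ∫⁻ y, G y ∂μ = ∫⁻ x, ∫⁻ y, G y * ph om N x y ∂om x ∂μ := by
  have := h.sfin
  rw [h.mtp (fun x y => G y * ph om N x y) ((hG.comp measurable_snd).mul (measurable_ph hN))]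
  refine lintegral_congr_ae ?_
  filter_upwards [h.conull] with y hy
  have : ∀ᵐ x ∂om y, G y * ph om N x y * om x {w | N y w < 1} =
      G y * {w | N y w < 1}.indicator (fun _ => 1) x := by
    filter_upwards [h.carried y hy] with x hx
    have h1 := cc_mul h hx.1 hy hx.2
    have h0 : cc om N x y ≠ 0 := fun h0 => by simp [h0] at h1
    have ht : cc om N x y ≠ ∞ := fun h0 => by
      rw [h0, cc, ENNReal.mul_top (h.prop y hy x hx.1 hx.2).1] at h1
      exact ENNReal.top_ne_one h1
    rw [ph, mul_assoc, mul_assoc]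
    change G y * (_ * ((cc om N x y)⁻¹ * cc om N x y)) = _
    rw [ENNReal.inv_mul_cancel h0 ht, mul_one]
  rw [lintegral_congr_ae this, lintegral_const_mul _
    (measurable_const.indicator (measurableSet_ball hN y 1)),
    lintegral_indicator (measurableSet_ball hN y 1), setLIntegral_one, h.norm y hy, mul_one]

theorem ae_of_ae_leaf (h : IsLeafwise μ a R N om X1) (hN : Measurable (uncurry N))
    {B : Set X} (hB : MeasurableSet B) (h0 : ∀ᵐ x ∂μ, ∀ᵐ y ∂om x, y ∈ B) : ∀ᵐ y ∂μ, y ∈ B := by
  have h1 := lintegral_eq_ph h hN (G := Bᶜ.indicator fun _ => 1)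
    (measurable_const.indicator hB.compl)
  rw [lintegral_indicator hB.compl, setLIntegral_one] at h1
  have h2 : ∀ᵐ x ∂μ, ∫⁻ y, Bᶜ.indicator (fun _ => (1 : ℝ≥0∞)) y * ph om N x y ∂om x = 0 := by
    filter_upwards [h0] with x hx
    refine lintegral_eq_zero_of_ae_eq_zero ?_
    filter_upwards [hx] with y hy
    simp [hy]
  rw [lintegral_congr_ae h2, lintegral_zero] at h1
  exact h1

theorem lintegral_comp_eq (h : IsLeafwise μ a R N om X1) (hN : Measurable (uncurry N))
    (u : X ≃ᵐ X) {k : X → ℝ≥0∞} (hk : Measurable k)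
    (hu : ∀ᵐ x ∂μ, k x ≠ 0 ∧ (om x).map u = k x • om x) (hk' : ∀ x, k x = om x {y | N x (u y) < 1})
    {G : X → ℝ≥0∞} (hG : Measurable G) : ∫⁻ y, G (u y) ∂μ = ∫⁻ y, G y * k y ∂μ := by
  have := h.sfin
  have hΨ : Measurable (uncurry fun x y => k x * (G y * ph om N x (u.symm y))) :=
    (hk.comp measurable_fst).mul ((hG.comp measurable_snd).mul
      ((measurable_ph hN).comp (measurable_fst.prodMk (u.symm.measurable.comp measurable_snd))))
  have hgood : ∀ᵐ y ∂μ, y ∈ {y | cc om N y (u.symm y) ≠ 0 ∧ cc om N y (u.symm y) ≠ ∞} := by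
    have hm : Measurable fun y => cc om N y (u.symm y) :=
      (measurable_cc hN).comp (measurable_id.prodMk u.symm.measurable)
    refine ae_of_ae_leaf h hN ((hm (measurableSet_singleton 0).compl).inter
      (hm (measurableSet_singleton ∞).compl)) ?_
    filter_upwards [h.conull, hu] with x hx hux
    have h1 : ∀ᵐ y ∂(om x).map u, u.symm y ∈ X1 ∧ R x (u.symm y) := by
      rw [u.measurableEmbedding.ae_map_iff]
      simpa using h.carried x hx
    rw [hux.2] at h1
    filter_upwards [h.carried x hx, (Measure.ae_ennreal_smul_measure_iff hux.1).1 h1] with y hy hy'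
    obtain ⟨h0, ht, he⟩ := h.prop x hx y hy.1 hy.2
    obtain ⟨h0', ht', -⟩ := h.prop x hx _ hy'.1 hy'.2
    rw [he, Measure.smul_apply, smul_eq_mul] at h0' ht'
    exact ⟨right_ne_zero_of_mul h0', fun h2 => ht' (by
      rw [show om y {w | N (u.symm y) w < 1} = ∞ from h2]; exact ENNReal.mul_top h0)⟩
  calc ∫⁻ y, G (u y) ∂μ = ∫⁻ x, ∫⁻ y, G (u y) * ph om N x y ∂om x ∂μ :=
        lintegral_eq_ph h hN (hG.comp u.measurable)
    _ = ∫⁻ x, ∫⁻ y, k x * (G y * ph om N x (u.symm y)) ∂om x ∂μ := by
        refine lintegral_congr_ae ?_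
        filter_upwards [hu] with x hx
        have h1 := lintegral_map_equiv (μ := om x) (fun y => G y * ph om N x (u.symm y)) u
        simp only [MeasurableEquiv.symm_apply_apply] at h1
        rw [← h1, hx.2, lintegral_smul_measure, smul_eq_mul, lintegral_const_mul]
        exact hG.mul ((measurable_ph hN).comp (measurable_const.prodMk u.symm.measurable))
    _ = ∫⁻ y, ∫⁻ x, k x * (G y * ph om N x (u.symm y)) * om x {w | N y w < 1} ∂om y ∂μ :=
        h.mtp _ hΨ
    _ = ∫⁻ y, G y * k y ∂μ := by
        refine lintegral_congr_ae ?_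
        filter_upwards [h.conull, hu, hgood] with y hy huy hg
        have : ∀ᵐ x ∂om y, k x * (G y * ph om N x (u.symm y)) * om x {w | N y w < 1} =
            G y * k y * (cc om N y (u.symm y))⁻¹ *
              {w | N (u.symm y) w < 1}.indicator (fun _ => 1) x := by
          filter_upwards [h.carried y hy] with x hx
          obtain ⟨h0, ht, he⟩ := h.prop y hy x hx.1 hx.2
          have h1 := cc_mul h hx.1 hy hx.2
          change cc om N y x ≠ 0 at h0
          change cc om N y x ≠ ∞ at ht
          change om y = cc om N y x • om x at he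
          have hkx : k x = k y := by
            have h2 := congrArg (fun m : Measure X => m {w | N x w < 1}) huy.2
            simp only [Measure.smul_apply, smul_eq_mul] at h2
            rw [Measure.map_apply u.measurable (measurableSet_ball hN x 1)] at h2
            conv_lhs at h2 => rw [he, Measure.smul_apply, smul_eq_mul]
            rw [hk' x]
            change _ = k y * cc om N y x at h2
            rw [mul_comm (k y)] at h2
            exact (ENNReal.mul_right_inj h0 ht).1 h2
          have h3 : cc om N y (u.symm y) = cc om N y x * cc om N x (u.symm y) := by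
            conv_lhs => rw [cc, he, Measure.smul_apply, smul_eq_mul]
            rfl
          have h4 : om x {w | N y w < 1} = (cc om N y x)⁻¹ :=
            ENNReal.eq_inv_of_mul_eq_one_left (by rw [mul_comm]; exact h1)
          rw [hkx, h3, h4, ph, ENNReal.mul_inv (Or.inl h0) (Or.inl ht)]
          ring
        rw [lintegral_congr_ae this, lintegral_const_mul _
          (measurable_const.indicator (measurableSet_ball hN _ 1)),
          lintegral_indicator (measurableSet_ball hN _ 1), setLIntegral_one, mul_assoc]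
        change _ * ((cc om N y (u.symm y))⁻¹ * cc om N y (u.symm y)) = _
        rw [ENNReal.inv_mul_cancel hg.1 hg.2, mul_one]

theorem two_le_add_inv {k : ℝ≥0∞} (h0 : k ≠ 0) (ht : k ≠ ∞) :
    2 ≤ k + k⁻¹ ∧ (2 = k + k⁻¹ → k = 1) := by
  lift k to NNReal using ht
  have hk : (0 : ℝ) < k := by
    have : k ≠ 0 := by simpa using h0
    positivity
  have h0' : k ≠ 0 := by simpa using h0
  rw [← ENNReal.coe_inv h0', ← ENNReal.coe_add, ← ENNReal.coe_two, ENNReal.coe_le_coe,
    ENNReal.coe_inj, ← ENNReal.coe_one, ENNReal.coe_inj, ← NNReal.coe_le_coe, ← NNReal.coe_inj,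
    ← NNReal.coe_inj]
  push_cast
  have h1 : (k : ℝ) + (k : ℝ)⁻¹ - 2 = ((k : ℝ) - 1) ^ 2 / k := by field_simp; ring
  refine ⟨by have : 0 ≤ ((k : ℝ) - 1) ^ 2 / k := by positivity
             linarith, fun h2 => ?_⟩
  have h3 : ((k : ℝ) - 1) ^ 2 / k = 0 := by linarith
  rcases div_eq_zero_iff.1 h3 with h4 | h4
  · linarith [pow_eq_zero_iff (two_ne_zero) |>.1 h4]
  · exact absurd h4 hk.ne'

theorem map_eq_self [IsProbabilityMeasure μ] (h : IsLeafwise μ a R N om X1)
    (hN : Measurable (uncurry N)) (u : X ≃ᵐ X)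
    (hu : ∀ᵐ x ∂μ, ∃ c : ℝ≥0∞, c ≠ 0 ∧ c ≠ ∞ ∧ (om x).map u = c • om x) : μ.map u = μ := by
  have := h.sfin
  have hm : ∀ v : X ≃ᵐ X, Measurable fun x => om x {y | N x (v y) < 1} := fun v => by
    have h : MeasurableSet {p : X × X | N p.1 (v p.2) < 1} := measurableSet_lt
      (hN.comp (measurable_fst.prodMk (v.measurable.comp measurable_snd))) measurable_const
    exact Kernel.measurable_kernel_prodMk_left h
  have hval : ∀ (v : X ≃ᵐ X) x c, x ∈ X1 → (om x).map v = c • om x →
      om x {y | N x (v y) < 1} = c := fun v x c hx he => by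
    have h2 := congrArg (fun m : Measure X => m {w | N x w < 1}) he
    simp only [Measure.smul_apply, smul_eq_mul] at h2
    rw [Measure.map_apply v.measurable (measurableSet_ball hN x 1), h.norm x hx, mul_one] at h2
    exact h2
  set k : X → ℝ≥0∞ := fun x => om x {y | N x (u y) < 1} with hk
  set k' : X → ℝ≥0∞ := fun x => om x {y | N x (u.symm y) < 1} with hk'
  have h1 : ∀ᵐ x ∂μ, (k x ≠ 0 ∧ (om x).map u = k x • om x) ∧ k x ≠ ∞ ∧
      (k' x ≠ 0 ∧ (om x).map u.symm = k' x • om x) ∧ k' x = (k x)⁻¹ := by
    filter_upwards [h.conull, hu] with x hx ⟨c, h0, ht, he⟩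
    have e1 : k x = c := hval u x c hx he
    have he' : (om x).map u.symm = c⁻¹ • om x := by
      have := congrArg (Measure.map u.symm) he
      rw [MeasurableEquiv.map_symm_map, Measure.map_smul] at this
      conv_rhs => rw [this]
      rw [smul_smul, ENNReal.inv_mul_cancel h0 ht, one_smul]
    have e2 : k' x = c⁻¹ := hval u.symm x _ hx he'
    rw [e1, e2]
    exact ⟨⟨h0, he⟩, ht, ⟨ENNReal.inv_ne_zero.2 ht, he'⟩, rfl⟩
  have i1 := fun G hG => lintegral_comp_eq h hN u (hm u) (h1.mono fun x hx => hx.1) (fun _ => rfl)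
    (G := G) hG
  have i2 := lintegral_comp_eq h hN u.symm (hm u.symm) (h1.mono fun x hx => hx.2.2.1)
    (fun _ => rfl) (G := fun _ => 1) measurable_const
  have i3 := i1 (fun _ => 1) measurable_const
  simp only [lintegral_const, measure_univ, one_mul, mul_one] at i2 i3
  have h2 : (fun _ => (2 : ℝ≥0∞)) =ᵐ[μ] fun x => k x + k' x := by
    refine ae_eq_of_ae_le_of_lintegral_le ?_ (by simp) ((hm u).add (hm u.symm)).aemeasurable ?_
    · filter_upwards [h1] with x hx
      rw [hx.2.2.2]
      exact (two_le_add_inv hx.1.1 hx.2.1).1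
    · rw [lintegral_add_left (hm u), ← i2, ← i3]
      simp [one_add_one_eq_two]
  have h3 : ∀ᵐ x ∂μ, k x = 1 := by
    filter_upwards [h1, h2] with x hx hx2
    rw [hx.2.2.2] at hx2
    exact (two_le_add_inv hx.1.1 hx.2.1).2 hx2
  refine Measure.ext_of_lintegral _ fun G hG => ?_
  rw [lintegral_map hG u.measurable, i1 G hG]
  refine lintegral_congr_ae ?_
  filter_upwards [h3] with x hx
  change G x * k x = G x
  rw [hx, mul_one]

end Pool.Agent.P.MP_d483fb_an.Z.Loop
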