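import Pool.Agent.P.MP_d483fb_an.Z.Loop.Onto
import Pool.Agent.P.MP_d483fb_an.Z.Loop.Const
import Pool.Agent.P.MP_d483fb_an.Z.Loop.Mtp

/-!
The loop argument: invariance under a one parameter subgroup of a coarse root group.
-/

open scoped Matrix Matrix.Norms.Operator InnerProductSpace RealInnerProductSpace Topology ENNReal
open MeasureTheory ProbabilityTheory NormedSpace Filter Set

noncomputable section

namespace Pool.Agent.P.MP_d483fb_an.Z

namespace GeoPre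

variable {G : Type} [Group G] [TopologicalSpace G] [IsTopologicalGroup G] {n k : ℕ}
  {D : Std G n k} {B : Type} [TopologicalSpace B] [MeasurableSpace B] [MulAction G B] {X : Type}
  [MetricSpace X] [MeasurableSpace X] [MulAction G X] {μ : Measure X} {κ : Type} [Fintype κ]
  [DecidableEq κ] {S : GeoPre D B X μ κ} {x : X} {β : ℝ} {o : S.toPre.Leafwise {β}}

/-- The upper left blocks of the generators of the stabiliser which fix the origin of the fibre. -/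
def KK (o : S.toPre.Leafwise {β}) (x : X) : Set (Fin n × Fin n → ℝ) :=
  {Y | ∃ V : Matrix (Fin n ⊕ κ) (Fin n ⊕ κ) ℝ, (∀ t : ℝ, exp (t • V) ∈ HH o x) ∧
    (∀ i, V i (.inr S.e0) = 0) ∧ (fun p => V (.inl p.1) (.inl p.2)) = Y}

omit [IsTopologicalGroup G] in
theorem exists_KK (hx : x ∈ o.X1) :
    ∃ K : Submodule ℝ (Fin n × Fin n → ℝ), KK o x = K := by
  let g : Matrix (Fin n ⊕ κ) (Fin n ⊕ κ) ℝ →ₗ[ℝ] (Fin n ⊕ κ → ℝ) :=
    { toFun := fun V i => V i (.inr S.e0)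
      map_add' := fun _ _ => rfl
      map_smul' := fun _ _ => rfl }
  let f : Matrix (Fin n ⊕ κ) (Fin n ⊕ κ) ℝ →ₗ[ℝ] (Fin n × Fin n → ℝ) :=
    { toFun := fun V p => V (.inl p.1) (.inl p.2)
      map_add' := fun _ _ => rfl
      map_smul' := fun _ _ => rfl }
  refine ⟨((isGrp_HH hx).lie ⊓ LinearMap.ker g).map f, Set.ext fun Y => ⟨?_, ?_⟩⟩
  · rintro ⟨V, h1, h2, h3⟩
    exact ⟨V, ⟨h1, funext h2⟩, h3⟩
  · rintro ⟨V, ⟨h1, h2⟩, h3⟩
    exact ⟨V, h1, congrFun h2, h3⟩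

theorem KK_equiv (hx : x ∈ o.X1) {Y : Fin n × Fin n → ℝ} (hY : Y ∈ KK o x) :
    (fun p => Real.exp (S.w.wa (.inl p.1) - S.w.wa (.inl p.2)) * Y p) ∈
      KK o (S.f (1, 0) x) := by
  obtain ⟨V, h1, h2, rfl⟩ := hY
  have h0 := o.sub1 hx
  have h0' := S.inv0 (1, 0) x h0
  have hu := Pre.isUnit_L h0 (1, 0)
  refine ⟨S.L (1, 0) x * V * (S.L (1, 0) x)⁻¹, fun t => ?_, fun i => ?_, funext fun p => ?_⟩
  · rw [← smul_mul_assoc, ← mul_smul_comm,
      Matrix.exp_conj _ _ ((Matrix.isUnit_iff_isUnit_det _).2 hu)]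
    exact HH_equiv hx (h1 t)
  · rw [Pre.L_inv h0, (col_of_lev (S.L_mem _ _ h0') (S.L_lev _ _ h0')).mul_apply]
    simp [Matrix.mul_apply, h2]
  · change (S.L (1, 0) x * V * (S.L (1, 0) x)⁻¹).toBlocks₁₁ p.1 p.2 = _ * V.toBlocks₁₁ p.1 p.2
    rw [Pre.L_inv h0, Wt.blk_mul (S.Gen_blk _ (S.L_mem _ _ h0')).2.1,
      Wt.blk_mul (lie_blk21 fun t => (h1 t).1), S.L_blk _ _ h0, S.L_blk _ _ h0', D.ρ_a, D.ρ_a,
      Matrix.mul_diagonal, Matrix.diagonal_mul, wa_inl, inner_sub_left, sub_eq_add_neg,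
      Real.exp_add]
    simp only [Prod.fst_neg, Prod.snd_neg, one_smul, zero_smul, add_zero, neg_zero, neg_smul,
      inner_neg_right]
    ring

omit [IsTopologicalGroup G] in
theorem measurable_tint_nu (p : Loop.Idx (Matrix (Fin n ⊕ κ) (Fin n ⊕ κ) ℝ) × ℕ)
    (h : Matrix (Fin n ⊕ κ) (Fin n ⊕ κ) ℝ) : Measurable fun x => Loop.tint (o.nu x) p h := by
  have := o.lw.sfin
  have h1 : Measurable fun s => Loop.tst p (s * h) :=
    (Loop.continuous_tst p).measurable.comp (measurable_mul_const h)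
  have h2 : (fun x => Loop.tint (o.nu x) p h) =
      fun x => ∫⁻ y, Loop.tst p (S.toPre.n x y * h) ∂o.om x :=
    funext fun x => lintegral_map h1 (S.toPre.measurable_n_right x)
  rw [h2]
  exact Measurable.lintegral_kernel_prod_right
    (f := fun x y => Loop.tst p (S.toPre.n x y * h)) (h1.comp S.toPre.measurable_n)

omit [IsTopologicalGroup G] in
theorem measurableSet_KK {Q : Set (Fin n × Fin n → ℝ)} (hQ : IsClosed Q) :
    MeasurableSet {x | x ∈ o.X1 ∧ ∃ Y ∈ KK o x, Y ∈ Q} := by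
  have hc : ∀ t : ℝ, Continuous fun V : Matrix (Fin n ⊕ κ) (Fin n ⊕ κ) ℝ => exp (t • V) :=
    fun t => exp_cont.comp (continuous_const_smul t)
  have hi : ∀ (t : ℝ) (V : Matrix (Fin n ⊕ κ) (Fin n ⊕ κ) ℝ), exp (t • V) * exp (-t • V) = 1 :=
    fun t V => by rw [neg_smul]; exact exp_mul_neg _
  let W : Set (Matrix (Fin n ⊕ κ) (Fin n ⊕ κ) ℝ) := {V | (∀ t : ℝ, exp (t • V) ∈ S.Gam β) ∧
    (∀ i, V i (.inr S.e0) = 0) ∧ (fun p => V (.inl p.1) (.inl p.2)) ∈ Q}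
  have hW : IsClosed W := by
    have e : W = (⋂ t : ℝ, (fun V => exp (t • V)) ⁻¹' S.Gam β) ∩
        ((⋂ i, {V | V i (.inr S.e0) = 0}) ∩
          (fun V (p : Fin n × Fin n) => V (.inl p.1) (.inl p.2)) ⁻¹' Q) := by
      ext V
      simp only [W, mem_ofPred_eq, mem_inter_iff, mem_iInter, mem_preimage]
    rw [e]
    exact (isClosed_iInter fun t => isClosed_Gam.preimage (hc t)).inter
      ((isClosed_iInter fun i => isClosed_eq (continuous_id.matrix_elem _ _) continuous_const).inter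
        (hQ.preimage (continuous_pi fun p => continuous_id.matrix_elem _ _)))
  have key : ∀ R : ℕ, MeasurableSet {x | x ∈ o.X1 ∧ ∃ V ∈ Metric.closedBall 0 (R : ℝ) ∩ W,
      ∀ i : ℚ × _ × _,
        (Loop.tint (o.nu x) i.2.1 (exp ((i.1 : ℝ) • V))).toReal *
          (Loop.tint (o.nu x) i.2.2 1).toReal -
        (Loop.tint (o.nu x) i.2.2 (exp ((i.1 : ℝ) • V))).toReal *
          (Loop.tint (o.nu x) i.2.1 1).toReal = 0} := fun R => by
    refine Loop.measurableSet_exists_compact ((isCompact_closedBall _ _).inter_right hW) o.lw.meas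
      _ (fun i V _ => ?_) fun i x hx => ?_
    · exact ((measurable_tint_nu _ _).ennreal_toReal.mul
        (measurable_tint_nu _ _).ennreal_toReal).sub
        ((measurable_tint_nu _ _).ennreal_toReal.mul (measurable_tint_nu _ _).ennreal_toReal)
    · have := o.finite_nu hx
      have h1 := fun p => Loop.continuousOn_tint (o.nu x) p
        (Q := Metric.closedBall 0 (R : ℝ) ∩ W) (hc i.1).continuousOn (hc (-i.1)).continuousOn
        fun V _ => hi _ V
      exact ((h1 _).mul continuousOn_const).sub ((h1 _).mul continuousOn_const)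
  convert MeasurableSet.iUnion key using 1
  ext x
  simp only [mem_ofPred_eq, mem_iUnion]
  constructor
  · rintro ⟨hx, _, ⟨V, h1, h2, rfl⟩, h3⟩
    have := o.finite_nu hx
    obtain ⟨R, hR⟩ := exists_nat_ge ‖V‖
    exact ⟨R, hx, V, ⟨mem_closedBall_zero_iff.2 hR, fun t => (h1 t).1, h2, h3⟩, fun i =>
      (Loop.prj_iff (o.nu_ne_zero hx) (hi _ V)).1 (h1 _).2 _ _⟩
  · rintro ⟨R, hx, V, ⟨-, h1, h2, h3⟩, h4⟩
    have := o.finite_nu hx
    refine ⟨hx, _, ⟨V, fun t => ?_, h2, rfl⟩, h3⟩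
    have h5 : Continuous fun t : ℝ => exp (t • V) :=
      exp_cont.comp (continuous_id.smul continuous_const)
    exact Rat.denseRange_cast.induction_on t ((isGrp_HH hx).closed.preimage h5) fun q =>
      ⟨h1 q, (Loop.prj_iff (o.nu_ne_zero hx) (hi _ V)).2 fun p p' => h4 (q, p, p')⟩

open Classical in
theorem loop [StandardBorelSpace X] [MeasurableConstSMul G X] [IsProbabilityMeasure μ]
    (S : GeoPre D B X μ κ) (hLW : S.toPre.HasLW) (hPS : S.toPre.HasPS)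
    (hHP : S.HasHP) {b al ga : Euc k} (hb : b ∈ D.roots)
    (hu : ∀ γ ∈ D.roots, γ ∈ Std.cls b → γ = b ∨ γ = (2 : ℝ) • b)
    (hal : al ∈ D.roots) (hsum : al + ga = b) (hnp : ∀ c : ℝ, al ≠ c • b)
    (hbr : ∀ E ∈ D.gr al, E ≠ 0 → ∀ Z ∈ D.gr b, ∃ W ∈ D.gr ga, ⁅E, W⁆ = Z)
    (h1 : 0 < ⟪al, S.Ha⟫) (h2 : 0 < ⟪ga, S.Ha⟫)
    (hcnt : (S.k1.filter fun m => S.om (.inr m) ∈ Std.cls b).card < Module.finrank ℝ (D.u b)) :
    ∃ c : ℝ, 0 < c ∧ ∃ Y ∈ D.gr (c • b), Y ≠ 0 ∧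
      ∀ t : ℝ, MeasurePreserving (fun x : X => D.ex (t • Y) • x) μ μ := by
  obtain ⟨β, hβ⟩ := exists_sl (S := S) hb (by rw [← hsum, inner_add_left]; positivity)
  obtain ⟨o, o', hp⟩ := hLW.ae_prj hPS β
  have hx1 := o'.lw.conull
  obtain ⟨Y, hY0, ⟨d, hd⟩, hY⟩ := Loop.exists_const_vec S.erg
    (fun p : Fin n × Fin n => S.w.wa (.inl p.1) - S.w.wa (.inl p.2)) (KK o')
    (hx1.mono fun x hx => by
      obtain ⟨K, hK⟩ := exists_KK hx
      rw [hK]
      exact K.closed_of_finiteDimensional)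
    (hx1.mono fun x hx c _ Y hY => by
      obtain ⟨K, hK⟩ := exists_KK hx
      rw [hK] at hY ⊢
      exact K.smul_mem c hY)
    (by
      filter_upwards [hx1, o.lw.conull, hp, hHP o] with x hx hx' h3 h4
      obtain ⟨V, h5, h6, h7⟩ := exists_col hx hβ (onto hx hβ hb hu hal hsum hnp hbr h1 h2
        fun φ hφ h0 Y hY => vanish hx' hx h3 h4 hφ h0 hY) hcnt
      exact ⟨_, ⟨V, h5, h6, rfl⟩, fun h => h7 (Matrix.ext fun i j => congrFun h (i, j))⟩)
    (hx1.mono fun x hx Y hY => KK_equiv hx hY)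
    fun Q hQ => (measurableSet_KK hQ.isClosed).nullMeasurableSet.congr
      (eventuallyEq_set.2 (hx1.mono fun x hx => and_iff_right hx))
  obtain ⟨x0, V0, h3, -, h4⟩ := hY.exists
  have h5 := blk_mem_u hβ fun t => (h3 t).1
  obtain ⟨p0, hp0⟩ := Function.ne_iff.1 hY0
  obtain ⟨c, hc, h6⟩ := h5.2 p0.1 p0.2 (by rwa [← h4] at hp0)
  refine ⟨c, hc, V0.toBlocks₁₁, ⟨h5.1, fun i j hij => ?_⟩,
    fun h => hp0 (h4 ▸ congrFun (congrFun h p0.1) p0.2), fun t => ?_⟩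
  · have h7 := S.g3 _ _ _ _ ((hd (i, j) (h4 ▸ hij)).trans (hd p0 hp0).symm)
    simp only [S.om_inl] at h7
    exact h7.trans h6
  refine ⟨measurable_const_smul _, Loop.map_eq_self o'.lw S.toPre.measurable_N
    (MeasurableEquiv.smul (D.ex (t • V0.toBlocks₁₁))) ?_⟩
  filter_upwards [hx1, hY] with x hx ⟨V, h7, h8, h9⟩
  have h10 : V.toBlocks₁₁ = V0.toBlocks₁₁ :=
    Matrix.ext fun i j => congrFun (h9.trans h4.symm) (i, j)
  have h11 := map_eq_of_mem hx (h7 (-t)) (col_exp fun i => by simp [h8])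
    ((D.np S.Ha).smul_mem (-t) (blk_mem_np fun t => (h7 t).1))
    (blk_exp_smul (fun t => (h7 t).1) (-t))
  rwa [neg_smul, neg_neg, h10] at h11

end GeoPre

end Pool.Agent.P.MP_d483fb_an.Z
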