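import Pool.Agent.P.MP_d483fb_an.Z.Loop.Geo
import Pool.Agent.P.MP_d483fb_an.Z.Loop.Alg
import Pool.Agent.P.MP_d483fb_an.Z.Loop.Defs
import Pool.Agent.P.MP_d483fb_an.Z.Lie.Root0

/-!
The stabiliser of the middle leafwise measure projects onto the coarse root group.
-/

open scoped Matrix Matrix.Norms.Operator InnerProductSpace RealInnerProductSpace Topology ENNReal
open MeasureTheory ProbabilityTheory NormedSpace Filter Set

noncomputable section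

namespace Pool.Agent.P.MP_d483fb_an.Z

theorem PolyF.linear {ι : Type} [Fintype ι] [DecidableEq ι] (ξ : Matrix ι ι ℝ →ₗ[ℝ] ℝ) :
    PolyF ξ := by
  have : (ξ : Matrix ι ι ℝ → ℝ) = fun g => ∑ i, ∑ j, g i j * ξ (Matrix.single i j 1) := by
    ext g
    conv_lhs => rw [Matrix.matrix_eq_sum_single g]
    simp only [map_sum]
    refine Finset.sum_congr rfl fun i _ => Finset.sum_congr rfl fun j _ => ?_
    rw [← smul_eq_mul, ← map_smul, Matrix.smul_single, smul_eq_mul, mul_one]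
  rw [this]
  exact PolyF.sum fun i _ => PolyF.sum fun j _ => (PolyF.coord i j).mul (PolyF.const _)

/-- The upper left block as a linear map. -/
def blkL (ι κ : Type) : Matrix (ι ⊕ κ) (ι ⊕ κ) ℝ →ₗ[ℝ] Matrix ι ι ℝ where
  toFun a := a.toBlocks₁₁
  map_add' _ _ := rfl
  map_smul' _ _ := rfl

theorem exists_ker {E F F' : Type} [AddCommGroup E] [Module ℝ E] [FiniteDimensional ℝ E]
    [AddCommGroup F] [Module ℝ F] [AddCommGroup F'] [Module ℝ F'] [FiniteDimensional ℝ F']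
    (L : Submodule ℝ E) (f : E →ₗ[ℝ] F) (g : E →ₗ[ℝ] F')
    (h : Module.finrank ℝ F' < Module.finrank ℝ (L.map f)) : ∃ V ∈ L, g V = 0 ∧ f V ≠ 0 := by
  by_contra hn
  push Not at hn
  have h1 := (f.domRestrict L).finrank_range_add_finrank_ker
  have h2 := (g.domRestrict L).finrank_range_add_finrank_ker
  have h3 : LinearMap.ker (g.domRestrict L) ≤ LinearMap.ker (f.domRestrict L) :=
    fun V hV => hn V V.2 hV
  have h4 := Submodule.finrank_mono h3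
  have h5 := Submodule.finrank_le (LinearMap.range (g.domRestrict L))
  rw [LinearMap.range_domRestrict] at h1
  omega

namespace GeoPre

variable {G : Type} [Group G] [TopologicalSpace G] [IsTopologicalGroup G] {n k : ℕ}
  {D : Std G n k} {B : Type} [TopologicalSpace B] [MeasurableSpace B] [MulAction G B] {X : Type}
  [MetricSpace X] [MeasurableSpace X] [MulAction G X] {μ : Measure X} {κ : Type} [Fintype κ]
  [DecidableEq κ] {S : GeoPre D B X μ κ} {x y : X} {β : ℝ} {b al ga : Euc k}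
  {V : Matrix (Fin n ⊕ κ) (Fin n ⊕ κ) ℝ}

variable (S) in
/-- `β` is the slope of the weight `b`. -/
structure Sl (b : Euc k) (β : ℝ) : Prop where
  cls : ∀ i j, S.w.wa j < S.w.wa i → S.w.slope i j = β → S.om i - S.om j ∈ Std.cls b
  eq : β * ⟪b, S.Ha⟫ = ⟪b, S.Ph⟫

omit [IsTopologicalGroup G] in
theorem exists_entry (hb : b ∈ D.roots) (h0 : 0 < ⟪b, S.Ha⟫) : ∃ i j, S.w.wa j < S.w.wa i ∧
    S.om i - S.om j = b ∧ S.w.slope i j * ⟪b, S.Ha⟫ = ⟪b, S.Ph⟫ := by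
  classical
  obtain ⟨p, -, hp⟩ := Finset.mem_image.1 (Finset.mem_filter.1 hb).1
  have h1 : S.w.wa (.inl p.2) < S.w.wa (.inl p.1) := by rwa [← sub_pos, wa_inl, hp]
  refine ⟨.inl p.1, .inl p.2, h1, by rw [S.om_inl, S.om_inl, hp], ?_⟩
  have h2 := Wt.slope_mul h1
  rwa [wa_inl, S.wb_eq, S.wb_eq, S.om_inl, S.om_inl, ← inner_sub_left, hp] at h2

omit [IsTopologicalGroup G] in
theorem exists_sl (hb : b ∈ D.roots) (h0 : 0 < ⟪b, S.Ha⟫) : ∃ β, S.Sl b β := by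
  obtain ⟨i, j, h1, h2, h3⟩ := exists_entry hb h0
  exact ⟨_, fun i' j' h4 h5 => h2 ▸ S.g2 i' j' i j h4 h1 h5, h3⟩

theorem blk_mem_u (hβ : S.Sl b β) (hV : ∀ t : ℝ, exp (t • V) ∈ S.Gam β) :
    V.toBlocks₁₁ ∈ D.u b :=
  ⟨blk_mem_g hV, fun i j hij => by
    have h := lie_entry hV (i := Sum.inl i) (j := Sum.inl j) hij
    have := hβ.cls _ _ h.1 h.2
    rwa [S.om_inl, S.om_inl] at this⟩

theorem vanish {o : S.toPre.Leafwise univ} {o' : S.toPre.Leafwise {β}} (hx : x ∈ o.X1)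
    (hx' : x ∈ o'.X1)
    (hp : ∀ᵐ y ∂o.om x, Loop.Prj (o'.nu x) (S.w.dD β (S.toPre.n x y)))
    (hh : ∀ F : MvPolynomial (Fin n × Fin n) ℝ,
      (∃ Y ∈ D.np S.Ha, MvPolynomial.eval (fun p => exp Y p.1 p.2) F ≠ 0) →
        o.om x {y | MvPolynomial.eval (fun p => (S.T x y).toBlocks₁₁ p.1 p.2) F = 0} = 0)
    {φ : Mat n → ℝ} (hφ : PolyF φ)
    (h0 : ∀ V ∈ (isGrp_HH hx').lie, φ (exp V.toBlocks₁₁) = 0) {Y : Mat n}
    (hY : Y ∈ D.np S.Ha) : φ (S.w.inl.dD β (exp Y)) = 0 := by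
  by_contra hn
  obtain ⟨F, hF⟩ := hφ.comp (S.w.inl.polyM_dD β)
  have h1 := measure_eq_zero_iff_ae_notMem.1 (hh F ⟨Y, hY, fun h => hn ((hF _).trans h)⟩)
  have h2 : ∀ᶠ h in 𝓝 (1 : Matrix (Fin n ⊕ κ) (Fin n ⊕ κ) ℝ), h ∈ HH o' x →
      ∃ V ∈ (isGrp_HH hx').lie, h = exp V :=
    eventually_nhdsWithin_iff.1 (isGrp_HH hx').eventually_exp
  have h3 := (S.w.polyM_dD β).continuous.tendsto 1
  rw [Wt.dD_one] at h3
  obtain ⟨r, hr, h4⟩ := S.w.exists_N_small (h3.eventually h2)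
  refine o.lw.pos x hx r hr (measure_eq_zero_iff_ae_notMem.2 ?_)
  filter_upwards [h1, hp, o.lw.carried x hx] with y h5 h6 h7 h8
  have hR := h7.2.1
  have hm : S.toPre.n x y ∈ {T | T ∈ S.Gen ∧ S.w.Nil univ T} := ⟨n_mem hR, Pre.n_nil hR⟩
  obtain ⟨V, hV, he⟩ := h4 _ hm.2 h8 ⟨⟨(S.dilClosed.dD_mem hm.2 hm).1, hm.2.dD⟩, h6⟩
  have h9 := blk_exp_smul (fun t => (hV t).1) 1
  rw [one_smul, one_smul, ← he,
    Wt.blk_dD S.dilClosed (fun T hT => (S.Gen_blk T hT.1).2.1) hm.2 hm, blk_n hR] at h9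
  exact h5 ((hF _).symm.trans ((congrArg φ h9).trans (h0 V hV)))

theorem onto {o' : S.toPre.Leafwise {β}} (hx' : x ∈ o'.X1) (hβ : S.Sl b β) (hb : b ∈ D.roots)
    (hu : ∀ γ ∈ D.roots, γ ∈ Std.cls b → γ = b ∨ γ = (2 : ℝ) • b)
    (hal : al ∈ D.roots) (hsum : al + ga = b) (hnp : ∀ c : ℝ, al ≠ c • b)
    (hbr : ∀ E ∈ D.gr al, E ≠ 0 → ∀ Z ∈ D.gr b, ∃ W ∈ D.gr ga, ⁅E, W⁆ = Z)
    (h1 : 0 < ⟪al, S.Ha⟫) (h2 : 0 < ⟪ga, S.Ha⟫)
    (hv : ∀ φ : Mat n → ℝ, PolyF φ → (∀ V ∈ (isGrp_HH hx').lie, φ (exp V.toBlocks₁₁) = 0) →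
      ∀ Y ∈ D.np S.Ha, φ (S.w.inl.dD β (exp Y)) = 0) :
    (isGrp_HH hx').lie.map (blkL (Fin n) κ) = D.u b := by
  have hb0 := D.root_ne_zero hb
  have hle : (isGrp_HH hx').lie.map (blkL (Fin n) κ) ≤ D.u b := by
    rintro _ ⟨V, hV, rfl⟩
    exact blk_mem_u hβ fun t => (hV t).1
  refine D.eq_u_of_onto hb hu ?_ hle fun Z hZ => ?_
  · rintro _ ⟨V, hV, rfl⟩ _ ⟨W, hW, rfl⟩
    refine ⟨_, (isGrp_HH hx').br_mem hV hW, ?_⟩
    rw [map_sub, Ring.lie_def]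
    exact congrArg₂ _ (Wt.blk_mul (lie_blk21 fun t => (hW t).1))
      (Wt.blk_mul (lie_blk21 fun t => (hV t).1))
  by_contra hn
  obtain ⟨ξ, hξ, hq⟩ := Submodule.exists_dual_map_eq_bot_of_notMem
    (p := ((isGrp_HH hx').lie.map (blkL (Fin n) κ)).map (D.pr b)) (x := Z) hn inferInstance
  have hw : D.u b ≤ D.wtS {γ | ∃ c : ℝ, 1 ≤ c ∧ γ = c • b} := by
    rw [D.u_eq_sup hb0 hu]
    exact sup_le
      (fun Y hY => D.wtS_mono (by rintro _ rfl; exact ⟨1, le_rfl, (one_smul _ _).symm⟩) hY.2)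
      fun Y hY => D.wtS_mono (by rintro _ rfl; exact ⟨2, one_le_two, rfl⟩) hY.2
  have hv' := hv _ (PolyF.linear (ξ ∘ₗ D.pr b)) fun V hV => by
    rw [LinearMap.comp_apply,
      Loop.pr_exp_base D hb0 (Y := V.toBlocks₁₁) (hw (hle ⟨V, hV, rfl⟩)),
      ← Submodule.mem_bot ℝ, ← hq]
    exact ⟨_, ⟨_, ⟨V, hV, rfl⟩, rfl⟩, rfl⟩
  have key : ∀ {a c : Euc k} (t : Loop.Two D S.w.inl a c β), t.Ha = S.Ha → a + c = b →
      ∀ E ∈ D.gr a, ∀ W ∈ D.gr c, ξ (E * W - W * E) = 0 := by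
    intro a c t ht hs E hE W hW
    have hE' : E ∈ D.np S.Ha := D.gr_le_grS (ht ▸ t.h1) hE
    have hW' : W ∈ D.np S.Ha := D.gr_le_grS (ht ▸ t.h2) hW
    obtain ⟨h3, h4⟩ := D.ex_mul_ex (Std.pos_half S.Ha) hE' hW'
    have h5 := congrArg D.ρ h4
    rw [map_mul, D.ρ_ex _ hE.1, D.ρ_ex _ hW.1, D.ρ_ex _ h3.1] at h5
    have h6 := hv' _ h3
    rwa [← h5, LinearMap.comp_apply, ← hs, t.pr_dD hE.2 hW.2] at h6
  obtain ⟨E, hE, hE0⟩ := D.exists_ne_zero hal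
  obtain ⟨W, hW, rfl⟩ := hbr E hE hE0 Z hZ
  have ha : ∀ i, S.w.inl.wa i = ⟪D.lam i, S.Ha⟫ := fun i => by rw [← S.om_inl]; exact S.wa_eq _
  have hb' : ∀ i, S.w.inl.wb i = ⟪D.lam i, S.Ph⟫ := fun i => by rw [← S.om_inl]; exact S.wb_eq _
  rw [Ring.lie_def] at hξ
  rcases lt_trichotomy (⟪al, S.Ph⟫ * ⟪ga, S.Ha⟫) (⟪ga, S.Ph⟫ * ⟪al, S.Ha⟫) with h | h | h
  · exact hξ (key ⟨S.Ha, S.Ph, ha, hb', h1, h2, hsum ▸ hβ.eq, h⟩ rfl hsum E hE W hW)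
  · obtain ⟨i, j, h3, h4, h5⟩ := exists_entry hal h1
    have h6 := hβ.eq
    rw [← hsum, inner_add_left, inner_add_left] at h6
    have h7 : (S.w.slope i j - β) * (⟪al, S.Ha⟫ * (⟪al, S.Ha⟫ + ⟪ga, S.Ha⟫)) = 0 := by
      linear_combination (⟪al, S.Ha⟫ + ⟪ga, S.Ha⟫) * h5 - ⟪al, S.Ha⟫ * h6 + h
    obtain ⟨c, -, hc⟩ := hβ.cls i j h3
      (sub_eq_zero.1 ((mul_eq_zero.1 h7).resolve_right (by positivity)))
    exact hnp c (h4 ▸ hc)
  · have h3 := key ⟨S.Ha, S.Ph, ha, hb', h2, h1, by rw [add_comm, hsum]; exact hβ.eq, h⟩ rfl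
      ((add_comm _ _).trans hsum) W hW E hE
    rw [← neg_sub, map_neg, neg_eq_zero] at h3
    exact hξ h3

omit [IsTopologicalGroup G] in
open Classical in
theorem exists_col {o' : S.toPre.Leafwise {β}} (hx' : x ∈ o'.X1) (hβ : S.Sl b β)
    (h : (isGrp_HH hx').lie.map (blkL (Fin n) κ) = D.u b)
    (hcnt : (S.k1.filter fun m => S.om (.inr m) ∈ Std.cls b).card < Module.finrank ℝ (D.u b)) :
    ∃ V ∈ (isGrp_HH hx').lie, (∀ i, V i (.inr S.e0) = 0) ∧ V.toBlocks₁₁ ≠ 0 := by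
  let g : Matrix (Fin n ⊕ κ) (Fin n ⊕ κ) ℝ →ₗ[ℝ]
      ((S.k1.filter fun m => S.om (.inr m) ∈ Std.cls b) → ℝ) :=
    { toFun := fun V m => V (.inr m.1) (.inr S.e0)
      map_add' := fun _ _ => rfl
      map_smul' := fun _ _ => rfl }
  obtain ⟨V, hV, h1, h2⟩ := exists_ker (isGrp_HH hx').lie (blkL (Fin n) κ) g (by
    rwa [h, Module.finrank_fintype_fun_eq_card, Fintype.card_coe])
  refine ⟨V, hV, ?_, h2⟩
  rintro (i | m)
  · exact lie_blk12 (fun t => (hV t).1) i _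
  by_contra hn
  have h3 := lie_entry (fun t => (hV t).1) hn
  have h4 := hβ.cls _ _ h3.1 h3.2
  rw [S.om_e0, sub_zero] at h4
  by_cases hm : m ∈ S.k1
  · exact hn (congrFun h1 ⟨m, Finset.mem_filter.2 ⟨hm, h4⟩⟩)
  · exact hn (S.Gen_lie V (fun t => ⟨(hV t).1.1, (hV t).1.2.univ⟩) m hm)

end GeoPre

end Pool.Agent.P.MP_d483fb_an.Z
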