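import Pool.Agent.P.MP_d483fb_an.Z.Loop.Test

/-!
A measure which is a product in two systems of coordinates with the same first factor: the change
of coordinates preserves the first factor up to a scalar.
-/

open MeasureTheory Set Filter Topology Metric TopologicalSpace Function
open scoped ENNReal

noncomputable section

namespace Pool.Agent.P.MP_d483fb_an.Z.Loop

variable {A : Type*} [NormedRing A] [ProperSpace A] [MeasurableSpace A] [BorelSpace A]

theorem measurable_tint (m : Measure A) [SFinite m] (p : Idx A × ℕ) : Measurable (tint m p) :=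
  Measurable.lintegral_prod_left (f := fun s h => tst p (s * h))
    ((continuous_tst p).measurable.comp measurable_mul)

theorem measurableSet_prj {m : Measure A} [IsFiniteMeasureOnCompacts m] (hm : m ≠ 0) :
    MeasurableSet {h | IsUnit h ∧ Prj m h} := by
  have : {h | IsUnit h ∧ Prj m h} = {h | IsUnit h} ∩ ⋂ p, ⋂ q, {h |
      (tint m p h).toReal * (tint m q 1).toReal - (tint m q h).toReal * (tint m p 1).toReal = 0} := by
    ext h
    simp only [mem_ofPred_eq, mem_inter_iff, mem_iInter]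
    refine and_congr_right fun ⟨u, hu⟩ => ?_
    exact prj_iff hm (h' := (u⁻¹ : Aˣ)) (by rw [← hu]; simp)
  rw [this]
  refine Units.isOpen.measurableSet.inter (MeasurableSet.iInter fun p => MeasurableSet.iInter
    fun q => measurableSet_eq_fun ?_ measurable_const)
  exact ((measurable_tint m p).ennreal_toReal.mul_const _).sub
    ((measurable_tint m q).ennreal_toReal.mul_const _)

theorem ae_prj_of_skew {Y Y' : Type*} [MeasurableSpace Y] [MeasurableSpace Y'] {m : Measure A}
    [IsFiniteMeasureOnCompacts m] (hm : m ≠ 0) {η : Measure Y} [SigmaFinite η] {η' : Measure Y'}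
    [SFinite η'] {c c' : ℝ≥0∞} (c0 : c ≠ 0) (ct : c ≠ ∞) {β : Y → A} (hβ : Measurable β)
    (hu : ∀ᵐ y ∂η, IsUnit (β y)) {ψ : Y' → Y} (hψ : Measurable ψ)
    (H : ∀ F : A × Y → ℝ≥0∞, Measurable F → c * ∫⁻ s, ∫⁻ y, F (s * β y, y) ∂η ∂m =
      c' * ∫⁻ s, ∫⁻ y, F (s, ψ y) ∂η' ∂m) : ∀ᵐ y ∂η, Prj m (β y) := by
  have hb : ∀ i : Idx A, MeasurableSet (bx i) := fun i => (isOpen_bx i).measurableSet
  have hg : ∀ i : Idx A, Measurable fun y => m.map (· * β y) (bx i) := fun i => by
    have : (fun y => m.map (· * β y) (bx i)) = fun y => m ((fun s => (s, y)) ⁻¹'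
        {p : A × Y | p.1 * β p.2 ∈ bx i}) := by
      ext y
      rw [Measure.map_apply (by fun_prop) (hb i)]
      rfl
    rw [this]
    exact measurable_measure_prodMk_right ((measurable_fst.mul (hβ.comp measurable_snd)) (hb i))
  have key : ∀ i B, MeasurableSet B → c * ∫⁻ y in B, m.map (· * β y) (bx i) ∂η =
      c' * (m (bx i) * η' (ψ ⁻¹' B)) := fun i B hB => by
    have hF : Measurable ((bx i ×ˢ B).indicator (1 : A × Y → ℝ≥0∞)) :=
      measurable_one.indicator ((hb i).prod hB)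
    have h1 := H _ hF
    have h2 : ∫⁻ s, ∫⁻ y, (bx i ×ˢ B).indicator (1 : A × Y → ℝ≥0∞) (s * β y, y) ∂η ∂m =
        ∫⁻ y in B, m.map (· * β y) (bx i) ∂η := by
      rw [lintegral_lintegral_swap (f := fun s y => (bx i ×ˢ B).indicator (1 : A × Y → ℝ≥0∞)
        (s * β y, y)) (hF.comp ((measurable_fst.mul (hβ.comp measurable_snd)).prodMk
          measurable_snd)).aemeasurable, ← lintegral_indicator hB]
      refine lintegral_congr fun y => ?_
      by_cases hy : y ∈ B
      · rw [indicator_of_mem hy, ← lintegral_indicator_one (hb i),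
          lintegral_map (measurable_one.indicator (hb i)) (by fun_prop)]
        refine lintegral_congr fun s => ?_
        by_cases hs : s * β y ∈ bx i <;> simp [indicator, hy, hs]
      · simp [indicator, hy]
    have h3 : ∫⁻ s, ∫⁻ y, (bx i ×ˢ B).indicator (1 : A × Y → ℝ≥0∞) (s, ψ y) ∂η' ∂m =
        m (bx i) * η' (ψ ⁻¹' B) := by
      rw [← lintegral_indicator_one (hb i), ← lintegral_indicator_one (hψ hB),
        ← lintegral_lintegral_mul (measurable_one.indicator (hb i)).aemeasurable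
          (measurable_one.indicator (hψ hB)).aemeasurable]
      refine lintegral_congr fun s => lintegral_congr fun y => ?_
      by_cases hs : s ∈ bx i <;> by_cases hy : ψ y ∈ B <;> simp [indicator, hs, hy]
    rwa [h2, h3] at h1
  have hij : ∀ p : Idx A × Idx A, ∀ᵐ y ∂η, m.map (· * β y) (bx p.1) * m (bx p.2) =
      m.map (· * β y) (bx p.2) * m (bx p.1) := fun p => by
    refine ae_eq_of_forall_setLIntegral_eq_of_sigmaFinite ((hg _).mul_const _) ((hg _).mul_const _)
      fun B hB _ => ?_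
    rw [lintegral_mul_const _ (hg _), lintegral_mul_const _ (hg _),
      ← ENNReal.mul_right_inj c0 ct, ← mul_assoc, ← mul_assoc, key _ B hB, key _ B hB]
    ring
  filter_upwards [ae_all_iff.2 hij, hu] with y hy ⟨u, hu⟩
  have := finite_map_mul m (h := β y) (h' := (u⁻¹ : Aˣ)) (by rw [← hu]; simp)
  exact exists_smul_of_bx hm (fun h0 => hm ((Measure.map_eq_zero_iff (by fun_prop)).1 h0))
    fun i j => hy (i, j)

theorem lintegral_mconv3 {m0 m1 m2 : Measure A} [SFinite m1] [SFinite m2] {F : A → ℝ≥0∞}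
    (hF : Measurable F) : ∫⁻ n, F n ∂((m0 ∗ₘ m1) ∗ₘ m2) =
      ∫⁻ s, ∫⁻ y, F (s * y.1 * y.2) ∂(m1.prod m2) ∂m0 := by
  rw [Measure.mconv_assoc, Measure.lintegral_mconv hF]
  refine lintegral_congr fun s => ?_
  rw [Measure.lintegral_mconv_eq_lintegral_prod (by fun_prop)]
  simp only [mul_assoc]

theorem ae_prj_of_mconv {M m0 m1 m2 : Measure A} [IsFiniteMeasureOnCompacts m0]
    [IsFiniteMeasureOnCompacts m1] [IsFiniteMeasureOnCompacts m2] (hm : m0 ≠ 0) {c c' : ℝ≥0∞}
    (c0 : c ≠ 0) (ct : c ≠ ∞) (hM : M = c • ((m0 ∗ₘ m1) ∗ₘ m2)) (hM' : M = c' • ((m0 ∗ₘ m2) ∗ₘ m1))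
    {S Q R : A → Prop} (hS : ∀ᵐ s ∂m0, S s) (hQ : ∀ᵐ s ∂m1, Q s) (hR : ∀ᵐ s ∂m2, R s)
    (mQ : MeasurableSet {s | Q s}) (mR : MeasurableSet {s | R s})
    {dq dr ds : A → A} (mq : Measurable dq) (mr : Measurable dr) (ms : Measurable ds)
    (h1 : ∀ s q r, S s → Q q → R r → dq (s * q * r) = q ∧ dr (s * q * r) = r ∧
      ds (s * q * r) = s * ds (q * r))
    (hu : ∀ q r, Q q → R r → IsUnit (ds (q * r)))
    (h2 : ∀ s q r, S s → Q q → R r → dq (s * r * q) = dq (r * q) ∧ dr (s * r * q) = dr (r * q) ∧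
      ds (s * r * q) = s) :
    ∀ᵐ n ∂M, Prj m0 (ds (dq n * dr n)) := by
  have hQR : ∀ᵐ y ∂m1.prod m2, Q y.1 ∧ R y.2 :=
    (Measure.ae_prod_iff_ae_ae ((measurable_fst mQ).inter (measurable_snd mR))).2
      (hQ.mono fun q hq => hR.mono fun r hr => ⟨hq, hr⟩)
  have hRQ : ∀ᵐ y ∂m2.prod m1, R y.1 ∧ Q y.2 :=
    (Measure.ae_prod_iff_ae_ae ((measurable_fst mR).inter (measurable_snd mQ))).2
      (hR.mono fun q hq => hQ.mono fun r hr => ⟨hq, hr⟩)
  have hβ : Measurable fun y : A × A => ds (y.1 * y.2) := ms.comp measurable_mul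
  have h3 : ∀ᵐ y ∂m1.prod m2, Prj m0 (ds (y.1 * y.2)) := by
    refine ae_prj_of_skew hm (η' := m2.prod m1) (c' := c') c0 ct hβ
      (hQR.mono fun y hy => hu _ _ hy.1 hy.2)
      (ψ := fun y => (dq (y.1 * y.2), dr (y.1 * y.2))) (by fun_prop) fun F hF => ?_
    have hG : Measurable fun n => F (ds n, dq n, dr n) := hF.comp (ms.prodMk (mq.prodMk mr))
    have e1 := congrArg (fun m => ∫⁻ n, F (ds n, dq n, dr n) ∂m) (hM.symm.trans hM')
    simp only [lintegral_smul_measure, smul_eq_mul, lintegral_mconv3 hG] at e1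
    convert e1 using 2
    · refine lintegral_congr_ae (hS.mono fun s hs => lintegral_congr_ae (hQR.mono fun y hy => ?_))
      obtain ⟨a1, a2, a3⟩ := h1 s _ _ hs hy.1 hy.2
      simp only [a1, a2, a3]
    · refine lintegral_congr_ae (hS.mono fun s hs => lintegral_congr_ae (hRQ.mono fun y hy => ?_))
      obtain ⟨a1, a2, a3⟩ := h2 s _ _ hs hy.2 hy.1
      simp only [a1, a2, a3]
  have hB : MeasurableSet {n | IsUnit (ds (dq n * dr n)) ∧ Prj m0 (ds (dq n * dr n))} :=
    (ms.comp (mq.mul mr)) (measurableSet_prj hm)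
  refine Eventually.mono (p := fun n => IsUnit (ds (dq n * dr n)) ∧ Prj m0 (ds (dq n * dr n))) ?_
    fun n hn => hn.2
  rw [hM]
  refine Measure.ae_smul_measure ?_ c
  rw [ae_iff]
  have e2 := lintegral_mconv3 (m0 := m0) (m1 := m1) (m2 := m2) (measurable_one.indicator hB.compl)
  rw [lintegral_indicator_one hB.compl] at e2
  refine e2.trans (lintegral_eq_zero_of_ae_eq_zero (hS.mono fun s hs =>
    lintegral_eq_zero_of_ae_eq_zero ?_))
  filter_upwards [hQR, h3] with y hy hy3
  obtain ⟨a1, a2, -⟩ := h1 s _ _ hs hy.1 hy.2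
  refine indicator_of_notMem (notMem_compl_iff.2 ?_) _
  simp only [mem_ofPred_eq, a1, a2]
  exact ⟨hu _ _ hy.1 hy.2, hy3⟩

end Pool.Agent.P.MP_d483fb_an.Z.Loop
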