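import Pool.Agent.P.MP_d483fb_an.Z.Loop.Defs
import Pool.Agent.P.MP_d483fb_an.Z.Loop.Dec
import Pool.Agent.P.MP_d483fb_an.Z.Loop.Skew
import Pool.Agent.P.MP_d483fb_an.Z.LS.Basic

/-!
The product structure along an arbitrary cut of the slopes, and the invariance of the middle
measure under the defects.
-/

open scoped Matrix Matrix.Norms.Operator Topology ENNReal
open MeasureTheory ProbabilityTheory Filter Set

noncomputable section

namespace Pool.Agent.P.MP_d483fb_an.Z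

instance instMeasMulMatrix {ι : Type} [Fintype ι] [DecidableEq ι] :
    MeasurableMul₂ (Matrix ι ι ℝ) :=
  ⟨Measurable.mmul measurable_fst measurable_snd⟩

/-- The topology of the matrices, seen through the norm. -/
abbrev nTop (ι : Type) [Fintype ι] [DecidableEq ι] : TopologicalSpace (Matrix ι ι ℝ) :=
  (Matrix.linftyOpNormedRing (n := ι) (α := ℝ)).toMetricSpace.toUniformSpace.toTopologicalSpace

instance instBorelMatrixNorm {ι : Type} [Fintype ι] [DecidableEq ι] :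
    @BorelSpace (Matrix ι ι ℝ) (nTop ι) instMeasMatrix :=
  instBorelMatrix

instance instProperMatrix {ι : Type} [Fintype ι] [DecidableEq ι] : ProperSpace (Matrix ι ι ℝ) :=
  FiniteDimensional.proper_real (Matrix ι ι ℝ)

namespace Pre

variable {X : Type} [MeasurableSpace X] {μ : Measure X} {ι : Type} [Fintype ι] [DecidableEq ι]
  {S : Pre X μ ι} {J : Set ℝ} {x : X}

namespace Leafwise

variable (o : S.Leafwise J)

theorem sfinite_nu (x : X) : SFinite (o.nu x) := by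
  have := o.lw.sfin
  unfold nu
  infer_instance

theorem finite_nu (hx : x ∈ o.X1) : @IsFiniteMeasureOnCompacts _ _ (nTop ι) (o.nu x) := by
  change IsFiniteMeasureOnCompacts (o.nu x)
  refine ⟨fun K hK => ?_⟩
  obtain ⟨B, hB⟩ := hK.bddAbove_image S.w.continuous_N.continuousOn
  rw [nu, Measure.map_apply (S.measurable_n_right x) hK.measurableSet]
  refine (measure_mono fun y hy => ?_).trans_lt (o.lw.fin x hx (B + 1)).lt_top
  exact (hB ⟨_, hy, rfl⟩).trans_lt (lt_add_one B)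

theorem nu_ne_zero (hx : x ∈ o.X1) : o.nu x ≠ 0 := fun h => by
  have h1 := (Measure.map_eq_zero_iff (S.measurable_n_right x).aemeasurable).1 h
  have h2 := o.lw.norm x hx
  rw [h1] at h2
  simp at h2

theorem ae_nil (hx : x ∈ o.X1) : ∀ᵐ s ∂o.nu x, S.w.Nil J s :=
  (ae_map_iff (S.measurable_n_right x).aemeasurable (S.w.measurableSet_Nil J)).2
    ((o.lw.carried x hx).mono fun _ hy => hy.2.2)

theorem nu_eq_dirac (hx : x ∈ o.X1) (h : ∀ i j, S.w.wa j < S.w.wa i → S.w.slope i j ∉ J) :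
    o.nu x = Measure.dirac 1 := by
  have h1 : ∀ᵐ y ∂o.om x, S.n x y = 1 := (o.lw.carried x hx).mono fun y hy =>
    Wt.Nil.eq_one_of_empty (w := S.w) fun i j hij =>
      (h i j (hy.2.2 i j hij).1 (hy.2.2 i j hij).2).elim
  have h2 : o.om x univ = 1 := by
    rw [← o.lw.norm x hx]
    refine measure_congr (eventuallyEq_univ.2 (h1.mono fun y hy => ?_)).symm
    change S.w.N (S.n x y) < 1
    rw [hy, Wt.N_one]
    exact one_pos
  rw [nu, Measure.map_congr h1, Measure.map_const, h2, one_smul]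

end Leafwise

variable (S) in
/-- A choice of leafwise measures that depends only on the relation. -/
def omOf (R : X → X → Prop) : Kernel X X × Set X :=
  Classical.epsilon fun p => IsLeafwise μ S.aE R S.N p.1 p.2 ∧ p.2 ⊆ S.X0

/-- The chosen leafwise measures. -/
def HasLW.lw (h : S.HasLW) (hJ : J.OrdConnected) : S.Leafwise J :=
  have := Classical.epsilon_spec
    (p := fun p : Kernel X X × Set X => IsLeafwise μ S.aE (S.RJ J) S.N p.1 p.2 ∧ p.2 ⊆ S.X0)
    ((h J hJ).elim fun o => ⟨(o.om, o.X1), o.lw, o.sub1⟩)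
  ⟨(S.omOf (S.RJ J)).1, (S.omOf (S.RJ J)).2, this.1, this.2⟩

theorem HasLW.nu_congr (h : S.HasLW) {J' : Set ℝ} (hJ : J.OrdConnected) (hJ' : J'.OrdConnected)
    (e : ∀ i j, S.w.wa j < S.w.wa i → (S.w.slope i j ∈ J ↔ S.w.slope i j ∈ J')) :
    (h.lw hJ).nu = (h.lw hJ').nu := by
  have : S.RJ J = S.RJ J' := by
    ext x y
    exact and_congr_right fun _ => ⟨fun H i j hij => ⟨(H i j hij).1, (e i j (H i j hij).1).1
      (H i j hij).2⟩, fun H i j hij => ⟨(H i j hij).1, (e i j (H i j hij).1).2 (H i j hij).2⟩⟩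
  ext1 x
  change ((S.omOf (S.RJ J)).1 x).map _ = ((S.omOf (S.RJ J')).1 x).map _
  rw [this]

open Classical in
theorem HasLW.prod (h : S.HasLW) (hP : S.HasPS) {ε : ℝ} (hε : ε = 1 ∨ ε = -1) (m : ℕ) :
    ∀ {J J1 J2 : Set ℝ} (hJ : J.OrdConnected) (h1 : J1.OrdConnected) (h2 : J2.OrdConnected),
      J = J1 ∪ J2 → (∀ s ∈ J1, ∀ t ∈ J2, ε * s < ε * t) →
      (Finset.univ.filter fun p : ι × ι =>
        S.w.wa p.2 < S.w.wa p.1 ∧ S.w.slope p.1 p.2 ∈ J2).card = m →
      ∀ᵐ x ∂μ, ∃ c : ℝ≥0∞, c ≠ 0 ∧ c ≠ ∞ ∧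
        (h.lw hJ).nu x = c • ((h.lw h1).nu x ∗ₘ (h.lw h2).nu x) := by
  induction m using Nat.strong_induction_on with
  | _ m ih =>
  intro J J1 J2 hJ h1 h2 hU hlt hm
  rcases (Finset.univ.filter fun p : ι × ι =>
    S.w.wa p.2 < S.w.wa p.1 ∧ S.w.slope p.1 p.2 ∈ J2).eq_empty_or_nonempty with h0 | h0
  · have hno : ∀ i j, S.w.wa j < S.w.wa i → S.w.slope i j ∉ J2 := fun i j hij hs =>
      Finset.filter_eq_empty_iff.1 h0 (Finset.mem_univ (i, j)) ⟨hij, hs⟩
    rw [h.nu_congr hJ h1 fun i j hij => by simp [hU, hno i j hij]]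
    filter_upwards [(h.lw h2).lw.conull] with x hx
    have := (h.lw h1).sfinite_nu x
    exact ⟨1, one_ne_zero, ENNReal.one_ne_top, by
      rw [(h.lw h2).nu_eq_dirac hx hno, Measure.mconv_dirac_one, one_smul]⟩
  obtain ⟨p, hp, hmax⟩ := Finset.exists_max_image _ (fun p : ι × ι => ε * S.w.slope p.1 p.2) h0
  obtain ⟨χ, hχ⟩ : ∃ χ, χ = S.w.slope p.1 p.2 := ⟨_, rfl⟩
  simp only [Finset.mem_filter, Finset.mem_univ, true_and, ← hχ] at hp hmax
  have hV : OrdConnected {t : ℝ | ε * t ≤ ε * χ} := ⟨fun a ha b hb c hc => by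
    simp only [mem_ofPred_eq] at ha hb ⊢
    rcases hε with rfl | rfl <;> linarith [hc.1, hc.2]⟩
  have hE : ∀ K : Set ℝ, Wt.Extreme (K ∩ {t : ℝ | ε * t ≤ ε * χ}) χ := fun K => by
    rcases hε with rfl | rfl
    · exact Or.inr fun σ hσ => by simpa using hσ.2
    · exact Or.inl fun σ hσ => by simpa using hσ.2
  have g1 := hJ.inter hV
  have g2 := h2.inter hV
  have g1' := (hE J).ordConnected_diff g1
  have g2' := (hE J2).ordConnected_diff g2
  have e1 := hP _ χ g1 ⟨by rw [hU]; exact Or.inr hp.2, le_refl (ε * χ)⟩ (hE J) (h.lw g1) (h.lw g1')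
    (h.lw ordConnected_singleton)
  have e2 := hP _ χ g2 ⟨hp.2, le_refl (ε * χ)⟩ (hE J2) (h.lw g2) (h.lw g2')
    (h.lw ordConnected_singleton)
  have e3 := ih _ (by
    rw [← hm]
    refine Finset.card_lt_card ((Finset.ssubset_iff_of_subset fun q hq => ?_).2 ⟨p, ?_, ?_⟩)
    · simp only [Finset.mem_filter, Finset.mem_univ, true_and] at hq ⊢
      exact ⟨hq.1, hq.2.1.1⟩
    · simpa [← hχ] using hp
    · simp [← hχ]) g1' h1 g2' (by
      rw [hU]
      ext t
      simp only [Set.mem_sdiff, mem_inter_iff, mem_union, mem_ofPred_eq, mem_singleton_iff]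
      refine ⟨fun ⟨⟨a, b⟩, c⟩ => a.imp_right fun a => ⟨⟨a, b⟩, c⟩, ?_⟩
      rintro (a | ⟨⟨a, b⟩, c⟩)
      · exact ⟨⟨Or.inl a, (hlt t a χ hp.2).le⟩, fun e => (hlt t a χ hp.2).ne (by rw [e])⟩
      · exact ⟨⟨Or.inr a, b⟩, c⟩) (fun s hs t ht => hlt s hs t ht.1.1) rfl
  rw [h.nu_congr hJ g1 fun i j hij => ⟨fun a => ⟨a, by
      rw [hU] at a
      exact a.elim (fun a => (hlt _ a χ hp.2).le) fun a => hmax (i, j) ⟨hij, a⟩⟩, fun a => a.1⟩,
    h.nu_congr h2 g2 fun i j hij => ⟨fun a => ⟨a, hmax (i, j) ⟨hij, a⟩⟩, fun a => a.1⟩]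
  filter_upwards [e1, e2, e3] with x ⟨c1, a1, b1, f1⟩ ⟨c2, a2, b2, f2⟩ ⟨c3, a3, b3, f3⟩
  have := (h.lw g2').sfinite_nu x
  have := (h.lw h1).sfinite_nu x
  have := (h.lw (ordConnected_singleton (a := χ))).sfinite_nu x
  refine ⟨c1 * c3 * c2⁻¹, mul_ne_zero (mul_ne_zero a1 a3) (ENNReal.inv_ne_zero.2 b2),
    ENNReal.mul_ne_top (ENNReal.mul_ne_top b1 b3) (ENNReal.inv_ne_top.2 a2), ?_⟩
  rw [f1, f2, f3, Measure.mconv_smul_left, Measure.mconv_smul_right, Measure.mconv_assoc, smul_smul,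
    smul_smul, mul_assoc _ c2⁻¹, ENNReal.inv_mul_cancel a2 b2, mul_one]

/-- The defects preserve the middle measure up to a scalar. -/
theorem HasLW.ae_prj (h : S.HasLW) (hP : S.HasPS) (β : ℝ) :
    ∃ (o : S.Leafwise univ) (o' : S.Leafwise {β}), ∀ᵐ x ∂μ, ∀ᵐ y ∂o.om x,
      Loop.Prj (o'.nu x) (S.w.dD β (S.n x y)) := by
  refine ⟨h.lw ordConnected_univ, h.lw ordConnected_singleton, ?_⟩
  have e1 := h.prod hP (Or.inl rfl) _ ordConnected_univ (ordConnected_Iic (a := β))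
    (ordConnected_Ioi (a := β)) (by simp) (fun s hs t ht => by simpa using hs.trans_lt ht) rfl
  have e2 := h.prod hP (Or.inr rfl) _ (ordConnected_Iic (a := β)) (ordConnected_singleton (a := β))
    (ordConnected_Iio (a := β)) (by rw [union_comm, Iio_union_right])
    (fun s hs t ht => by rw [show s = β from hs]; simpa using ht) rfl
  have e3 := h.prod hP (Or.inr rfl) _ ordConnected_univ (ordConnected_Ici (a := β))
    (ordConnected_Iio (a := β)) (by simp) (fun s hs t ht => by simpa using ht.trans_le hs) rfl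
  have e4 := h.prod hP (Or.inl rfl) _ (ordConnected_Ici (a := β)) (ordConnected_singleton (a := β))
    (ordConnected_Ioi (a := β)) (by rw [union_comm, Ioi_union_left])
    (fun s hs t ht => by rw [show s = β from hs]; simpa using ht) rfl
  filter_upwards [e1, e2, e3, e4, (h.lw (ordConnected_singleton (a := β))).lw.conull,
    (h.lw (ordConnected_Iio (a := β))).lw.conull, (h.lw (ordConnected_Ioi (a := β))).lw.conull]
    with x ⟨c1, a1, b1, f1⟩ ⟨c2, a2, b2, f2⟩ ⟨c3, _, _, f3⟩ ⟨c4, _, _, f4⟩ x0 x1 x2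
  have := (h.lw _).finite_nu x0
  have := (h.lw _).finite_nu x1
  have := (h.lw _).finite_nu x2
  have := (h.lw (ordConnected_Iio (a := β))).sfinite_nu x
  have := (h.lw (ordConnected_Ioi (a := β))).sfinite_nu x
  rw [f2, Measure.mconv_smul_left, smul_smul] at f1
  rw [f4, Measure.mconv_smul_left, smul_smul] at f3
  exact ae_of_ae_map (S.measurable_n_right x).aemeasurable (Loop.ae_prj_of_mconv
    ((h.lw _).nu_ne_zero x0) (mul_ne_zero a1 a2) (ENNReal.mul_ne_top b1 b2) f1 f3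
    ((h.lw _).ae_nil x0) ((h.lw _).ae_nil x1) ((h.lw _).ae_nil x2) (S.w.measurableSet_Nil _)
    (S.w.measurableSet_Nil _) (S.w.polyM_dq β).measurable (S.w.polyM_dr β).measurable
    (S.w.polyM_ds β).measurable (fun s q r => Wt.dec_sqr)
    (fun q r hq hr => (Matrix.isUnit_iff_isUnit_det _).2
      (Wt.Nil.mul ordConnected_univ hq.univ hr.univ).ds.isUnit_det) fun s q r => Wt.dec_srq)

end Pre

end Pool.Agent.P.MP_d483fb_an.Z
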