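import Mathlib

/-!
A countable determining family of bounded open sets and of continuous test functions; the right
projective stabiliser of a locally finite measure on a normed ring.
-/

open MeasureTheory Set Filter Topology Metric TopologicalSpace
open scoped ENNReal

noncomputable section

namespace Pool.Agent.P.MP_d483fb_an.Z.Loop

variable (A : Type*) [NormedRing A] [ProperSpace A]

/-- The index set of the family. -/
abbrev Idx : Type _ := Finset (countableBasis A) × ℕ

instance : Countable (Idx A) := by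
  have := (countable_countableBasis A).to_subtype
  infer_instance

variable {A}

/-- The bounded open sets of the family. -/
def bx (i : Idx A) : Set A := ball 0 (i.2 : ℝ) ∩ ⋂ U ∈ i.1, (U : Set A)

theorem isOpen_bx (i : Idx A) : IsOpen (bx i) :=
  isOpen_ball.inter (isOpen_biInter_finset fun U _ => isOpen_of_mem_countableBasis U.2)

theorem bx_subset (i : Idx A) : bx i ⊆ closedBall 0 (i.2 : ℝ) :=
  inter_subset_left.trans ball_subset_closedBall

theorem isPiSystem_bx : IsPiSystem (range (bx (A := A))) := by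
  classical
  rintro _ ⟨i, rfl⟩ _ ⟨j, rfl⟩ -
  refine ⟨(i.1 ∪ j.1, min i.2 j.2), ?_⟩
  ext v
  simp only [bx, mem_inter_iff, mem_ball, Nat.cast_min, lt_min_iff, mem_iInter, Finset.mem_union]
  exact ⟨fun h => ⟨⟨h.1.1, fun U hU => h.2 U (Or.inl hU)⟩, h.1.2, fun U hU => h.2 U (Or.inr hU)⟩,
    fun h => ⟨⟨h.1.1, h.2.1⟩, fun U hU => hU.elim (h.1.2 U) (h.2.2 U)⟩⟩

theorem iUnion_bx (s : Finset (countableBasis A)) : ⋃ n : ℕ, bx (s, n) = ⋂ U ∈ s, (U : Set A) := by
  simp only [bx]
  rw [← iUnion_inter, iUnion_ball_nat, univ_inter]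

/-- The test functions. -/
def tst (p : Idx A × ℕ) (v : A) : ℝ≥0∞ := min 1 (p.2 * infEDist v (bx p.1)ᶜ)

theorem continuous_tst (p : Idx A × ℕ) : Continuous (tst p) :=
  continuous_const.min ((ENNReal.continuous_const_mul (ENNReal.natCast_ne_top _)).comp
    continuous_infEDist)

theorem tst_le (p : Idx A × ℕ) (v : A) : tst p v ≤ (bx p.1).indicator 1 v := by
  by_cases h : v ∈ bx p.1
  · rw [indicator_of_mem h]
    exact min_le_left _ _
  · rw [tst, infEDist_zero_of_mem (show v ∈ (bx p.1)ᶜ from h)]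
    simp

theorem tst_mono (i : Idx A) : Monotone fun k : ℕ => tst (i, k) := fun k l h v => by
  simp only [tst]
  gcongr

theorem iSup_tst (i : Idx A) (v : A) : ⨆ k : ℕ, tst (i, k) v = (bx i).indicator 1 v := by
  refine le_antisymm (iSup_le fun k => tst_le (i, k) v) ?_
  by_cases h : v ∈ bx i
  · rw [indicator_of_mem h]
    have h0 : infEDist v (bx i)ᶜ ≠ 0 := fun h0 =>
      ((isOpen_bx i).isClosed_compl.closure_eq ▸ mem_closure_iff_infEDist_zero.2 h0 :
        v ∈ (bx i)ᶜ) h
    obtain ⟨k, hk⟩ := ENNReal.exists_nat_mul_gt h0 ENNReal.one_ne_top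
    exact le_iSup_of_le k (le_min le_rfl hk.le)
  · rw [indicator_of_notMem h]
    exact zero_le

variable [MeasurableSpace A] [BorelSpace A]

theorem generateFrom_bx :
    ‹MeasurableSpace A› = MeasurableSpace.generateFrom (range (bx (A := A))) := by
  refine le_antisymm ?_ (MeasurableSpace.generateFrom_le ?_)
  · rw [BorelSpace.measurable_eq (α := A), (isBasis_countableBasis A).borel_eq_generateFrom]
    refine MeasurableSpace.generateFrom_le fun U hU => ?_
    have := iUnion_bx {(⟨U, hU⟩ : countableBasis A)}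
    simp only [Finset.mem_singleton, iInter_iInter_eq_left] at this
    rw [← this]
    exact MeasurableSet.iUnion fun n => MeasurableSpace.measurableSet_generateFrom ⟨_, rfl⟩
  · rintro _ ⟨i, rfl⟩
    exact (isOpen_bx i).measurableSet

omit [BorelSpace A] in
theorem measure_bx_ne_top (m : Measure A) [IsFiniteMeasureOnCompacts m] (i : Idx A) :
    m (bx i) ≠ ∞ :=
  ((measure_mono (bx_subset i)).trans_lt (isCompact_closedBall _ _).measure_lt_top).ne

theorem ext_bx {m m' : Measure A} [IsFiniteMeasureOnCompacts m]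
    (h : ∀ i, m (bx i) = m' (bx i)) : m = m' := by
  refine Measure.ext_of_generateFrom_of_iUnion _ (fun n => bx (∅, n)) generateFrom_bx
    isPiSystem_bx ?_ (fun n => ⟨_, rfl⟩) (fun n => measure_bx_ne_top m _) ?_
  · rw [iUnion_bx]
    simp
  · rintro _ ⟨i, rfl⟩
    exact h i

omit [BorelSpace A] in
theorem exists_bx_ne_zero {m : Measure A} (hm : m ≠ 0) : ∃ i, m (bx i) ≠ 0 := by
  by_contra h
  push Not at h
  refine hm (Measure.measure_univ_eq_zero.1 ?_)
  have := iUnion_bx (∅ : Finset (countableBasis A))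
  simp only [Finset.notMem_empty, iInter_of_empty, iInter_univ] at this
  rw [← this]
  exact measure_iUnion_null fun n => h _

theorem exists_smul_of_bx {m m' : Measure A} [IsFiniteMeasureOnCompacts m]
    [IsFiniteMeasureOnCompacts m'] (hm : m ≠ 0) (hm' : m' ≠ 0)
    (h : ∀ i j, m' (bx i) * m (bx j) = m' (bx j) * m (bx i)) :
    ∃ c : ℝ≥0∞, c ≠ 0 ∧ c ≠ ∞ ∧ m' = c • m := by
  obtain ⟨j, hj⟩ := exists_bx_ne_zero hm
  have he : m' = (m' (bx j) / m (bx j)) • m := ext_bx fun i => by
    rw [Measure.smul_apply, smul_eq_mul, div_eq_mul_inv, mul_right_comm, ← h i j, mul_assoc,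
      ENNReal.mul_inv_cancel hj (measure_bx_ne_top m j), mul_one]
  refine ⟨_, fun h0 => hm' ?_, ENNReal.div_ne_top (measure_bx_ne_top m' j) hj, he⟩
  rw [he, h0, zero_smul]

/-- `h` preserves `m` up to a scalar under right multiplication. -/
def Prj (m : Measure A) (h : A) : Prop :=
  ∃ c : ℝ≥0∞, c ≠ 0 ∧ c ≠ ∞ ∧ m.map (· * h) = c • m

omit [ProperSpace A] [BorelSpace A] in
theorem Prj.one (m : Measure A) : Prj m 1 :=
  ⟨1, one_ne_zero, ENNReal.one_ne_top, by simp⟩

omit [ProperSpace A] in
theorem Prj.mul {m : Measure A} {h h' : A} (h1 : Prj m h) (h2 : Prj m h') : Prj m (h * h') := by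
  obtain ⟨c, c0, ct, hc⟩ := h1
  obtain ⟨d, d0, dt, hd⟩ := h2
  refine ⟨c * d, mul_ne_zero c0 d0, ENNReal.mul_ne_top ct dt, ?_⟩
  have : (fun s => s * (h * h')) = (fun s => s * h') ∘ fun s => s * h := by
    ext s
    simp [mul_assoc]
  rw [this, ← Measure.map_map (by fun_prop) (by fun_prop), hc, Measure.map_smul, hd, smul_smul]

omit [ProperSpace A] in
theorem Prj.inv {m : Measure A} {h h' : A} (h1 : Prj m h) (hh : h * h' = 1) : Prj m h' := by
  obtain ⟨c, c0, ct, hc⟩ := h1
  refine ⟨c⁻¹, ENNReal.inv_ne_zero.2 ct, ENNReal.inv_ne_top.2 c0, ?_⟩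
  have := congrArg (Measure.map (· * h')) hc
  rw [Measure.map_map (by fun_prop) (by fun_prop), Measure.map_smul] at this
  have h2 : ((fun s => s * h') ∘ fun s => s * h) = id := by
    ext s
    simp [mul_assoc, hh]
  rw [h2, Measure.map_id] at this
  conv_rhs => rw [this]
  rw [smul_smul, ENNReal.inv_mul_cancel c0 ct, one_smul]

omit [ProperSpace A] in
theorem finite_map_mul (m : Measure A) [IsFiniteMeasureOnCompacts m] {h h' : A} (hh : h * h' = 1) :
    IsFiniteMeasureOnCompacts (m.map (· * h)) := by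
  refine ⟨fun K hK => ?_⟩
  rw [Measure.map_apply (by fun_prop) hK.measurableSet]
  refine (measure_mono ?_).trans_lt (hK.image (f := (· * h')) (by fun_prop)).measure_lt_top
  intro s hs
  exact ⟨s * h, hs, by simp [mul_assoc, hh]⟩

/-- The integral of a translated test function. -/
def tint (m : Measure A) (p : Idx A × ℕ) (h : A) : ℝ≥0∞ := ∫⁻ s, tst p (s * h) ∂m

theorem iSup_tint (m : Measure A) (i : Idx A) (h : A) :
    ⨆ k : ℕ, tint m (i, k) h = m.map (· * h) (bx i) := by
  simp only [tint]
  rw [← lintegral_iSup (f := fun (k : ℕ) s => tst (i, k) (s * h))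
    (fun k => (continuous_tst _).measurable.comp (by fun_prop))
    fun k l hkl s => tst_mono i hkl (s * h), ← lintegral_indicator_one (isOpen_bx i).measurableSet,
    lintegral_map (measurable_one.indicator (isOpen_bx i).measurableSet) (by fun_prop)]
  simp only [iSup_tst]

theorem tint_ne_top (m : Measure A) [IsFiniteMeasureOnCompacts m] (p : Idx A × ℕ) {h h' : A}
    (hh : h * h' = 1) : tint m p h ≠ ∞ := by
  have := finite_map_mul m hh
  refine ne_top_of_le_ne_top (measure_bx_ne_top (m.map (· * h)) p.1) ?_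
  rw [← iSup_tint]
  exact le_iSup (fun k : ℕ => tint m (p.1, k) h) p.2

theorem prj_iff {m : Measure A} [IsFiniteMeasureOnCompacts m] (hm : m ≠ 0) {h h' : A}
    (hh : h * h' = 1) : Prj m h ↔ ∀ p q, (tint m p h).toReal * (tint m q 1).toReal -
      (tint m q h).toReal * (tint m p 1).toReal = 0 := by
  constructor
  · rintro ⟨c, -, -, hc⟩ p q
    have h1 : ∀ p, tint m p h = c * tint m p 1 := fun p => by
      rw [tint, ← lintegral_map (continuous_tst p).measurable (by fun_prop), hc,
        lintegral_smul_measure, tint]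
      simp
    rw [h1 p, h1 q, ENNReal.toReal_mul, ENNReal.toReal_mul]
    ring
  · intro H
    have := finite_map_mul m hh
    refine exists_smul_of_bx hm (fun h0 => hm ?_) fun i j => ?_
    · exact (Measure.map_eq_zero_iff (by fun_prop)).1 h0
    have H' : ∀ p q, tint m p h * tint m q 1 = tint m q h * tint m p 1 := fun p q => by
      rw [← ENNReal.toReal_eq_toReal_iff'
        (ENNReal.mul_ne_top (tint_ne_top m p hh) (tint_ne_top m q (one_mul 1)))
        (ENNReal.mul_ne_top (tint_ne_top m q hh) (tint_ne_top m p (one_mul 1))),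
        ENNReal.toReal_mul, ENNReal.toReal_mul]
      linarith [H p q]
    have e : ∀ i, m (bx i) = ⨆ k : ℕ, tint m (i, k) 1 := fun i => by
      rw [iSup_tint]
      simp
    rw [e i, e j, ← iSup_tint, ← iSup_tint]
    simp only [ENNReal.iSup_mul, ENNReal.mul_iSup]
    rw [iSup_comm]
    exact iSup_congr fun k => iSup_congr fun l => H' _ _

theorem continuousOn_tint (m : Measure A) [IsFiniteMeasureOnCompacts m] (p : Idx A × ℕ)
    {P : Type*} [TopologicalSpace P] [FirstCountableTopology P] {Q : Set P} {h h' : P → A}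
    (hc : ContinuousOn h Q) (hc' : ContinuousOn h' Q) (hh : ∀ v ∈ Q, h v * h' v = 1) :
    ContinuousOn (fun v => (tint m p (h v)).toReal) Q := by
  intro v hv
  refine (ENNReal.tendsto_toReal (tint_ne_top m p (hh v hv))).comp ?_
  refine tendsto_lintegral_filter_of_dominated_convergence
    ((closedBall (0 : A) (p.1.2 * (‖h' v‖ + 1))).indicator 1)
    (Eventually.of_forall fun w => (continuous_tst _).measurable.comp (by fun_prop)) ?_ ?_ ?_
  · have h1 : ∀ᶠ w in 𝓝[Q] v, ‖h' w‖ < ‖h' v‖ + 1 :=
      (hc' v hv).norm.eventually (gt_mem_nhds (lt_add_one _))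
    filter_upwards [h1, self_mem_nhdsWithin] with w hw hwQ
    refine Eventually.of_forall fun s => (tst_le p _).trans ?_
    by_cases hs : s * h w ∈ bx p.1
    · rw [indicator_of_mem hs, indicator_of_mem]
      · exact le_rfl
      have h2 := mem_closedBall_zero_iff.1 (bx_subset _ hs)
      rw [mem_closedBall_zero_iff]
      calc ‖s‖ = ‖s * h w * h' w‖ := by rw [mul_assoc, hh w hwQ, mul_one]
        _ ≤ ‖s * h w‖ * ‖h' w‖ := norm_mul_le _ _
        _ ≤ _ := by gcongr
    · rw [indicator_of_notMem hs]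
      exact zero_le
  · rw [lintegral_indicator_one measurableSet_closedBall]
    exact (isCompact_closedBall _ _).measure_lt_top.ne
  · exact Eventually.of_forall fun s =>
      ((continuous_tst p).tendsto _).comp (tendsto_const_nhds.mul (hc v hv))

theorem isClosed_prj {m : Measure A} [IsFiniteMeasureOnCompacts m] (hm : m ≠ 0)
    {P : Type*} [TopologicalSpace P] [FirstCountableTopology P] {Q : Set P} (hQ : IsClosed Q)
    {h h' : P → A} (hc : ContinuousOn h Q) (hc' : ContinuousOn h' Q)
    (hh : ∀ v ∈ Q, h v * h' v = 1) : IsClosed {v | v ∈ Q ∧ Prj m (h v)} := by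
  have : {v | v ∈ Q ∧ Prj m (h v)} = Q ∩ ⋂ p, ⋂ q, (Q ∩ (fun v =>
      (tint m p (h v)).toReal * (tint m q 1).toReal -
      (tint m q (h v)).toReal * (tint m p 1).toReal) ⁻¹' {0}) := by
    ext v
    simp only [mem_ofPred_eq, mem_inter_iff, mem_iInter, mem_preimage, mem_singleton_iff]
    refine and_congr_right fun hv => ?_
    rw [prj_iff hm (hh v hv)]
    exact ⟨fun H p q => ⟨hv, H p q⟩, fun H p q => (H p q).2⟩
  rw [this]
  refine hQ.inter (isClosed_iInter fun p => isClosed_iInter fun q =>
    ContinuousOn.preimage_isClosed_of_isClosed ?_ hQ isClosed_singleton)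
  exact ((continuousOn_tint m p hc hc' hh).mul continuousOn_const).sub
    ((continuousOn_tint m q hc hc' hh).mul continuousOn_const)

end Pool.Agent.P.MP_d483fb_an.Z.Loop
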