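import Pool.Agent.P.MP_d483fb_an.Z.Loop.Main
import Pool.Agent.P.MP_d483fb_an.Z.Top.Defs
import Pool.Agent.P.MP_d483fb_an.Z.Lie.Root1

/-!
From leaf structures to invariance under one parameter subgroups of the coarse root groups.
-/

open scoped Matrix Matrix.Norms.Operator InnerProductSpace RealInnerProductSpace Topology ENNReal
open MeasureTheory ProbabilityTheory NormedSpace Filter Set

noncomputable section

namespace Pool.Agent.P.MP_d483fb_an.Z

open Classical in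
theorem Loop.card_le_of_fiber {κ ι E : Type} [Fintype κ] [Fintype ι] (s : Finset κ) (f : κ → E)
    (w : ι → E) (C : Set E)
    (h : ∀ γ, Nat.card {j // j ∈ s ∧ f j = γ} ≤ Nat.card {i // w i = γ}) :
    (s.filter fun j => f j ∈ C).card ≤ Nat.card {i // w i ∈ C} := by
  simp only [Nat.card_eq_fintype_card, Fintype.card_subtype] at h ⊢
  rw [Finset.card_eq_sum_card_image f]
  refine (Finset.sum_le_sum fun γ _ => (Finset.card_le_card fun j hj => ?_).trans (h γ)).trans ?_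
  · simp only [Finset.mem_filter, Finset.mem_univ, true_and] at hj ⊢
    exact ⟨hj.1.1, hj.2⟩
  · refine (Finset.sum_card_fiberwise_eq_card_filter _ _ w).trans_le
      (Finset.card_le_card fun i hi => ?_)
    simp only [Finset.mem_filter, Finset.mem_univ, true_and, Finset.mem_image] at hi ⊢
    obtain ⟨j, hj, e⟩ := hi
    exact e ▸ hj.2

theorem Loop.exists_pos {k : ℕ} {al ga b : Euc k} (hb : b ≠ 0) (hs : al + ga = b)
    (h1 : ∀ c : ℝ, al ≠ c • b) (h2 : ∀ c : ℝ, ga ≠ c • b) :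
    ∃ s : Euc k, 0 < ⟪al, s⟫ ∧ 0 < ⟪ga, s⟫ := by
  have ha : 0 < ‖al‖ := norm_pos_iff.2 (by simpa using h1 0)
  have hg : 0 < ‖ga‖ := norm_pos_iff.2 (by simpa using h2 0)
  have h3 : ⟪al, -ga⟫ < ‖al‖ * ‖-ga‖ := inner_lt_norm_mul_iff_real.2 fun h => by
    rw [norm_neg] at h
    have h4 : (‖al‖ - ‖ga‖) • al = ‖al‖ • b := by
      rw [sub_smul, h, ← hs, smul_add, smul_neg, sub_neg_eq_add]
    by_cases h5 : ‖al‖ - ‖ga‖ = 0
    · rw [h5, zero_smul] at h4
      exact smul_ne_zero ha.ne' hb h4.symm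
    · exact h1 ((‖al‖ - ‖ga‖)⁻¹ * ‖al‖) (by rw [mul_smul, ← h4, inv_smul_smul₀ h5])
  rw [inner_neg_right, norm_neg] at h3
  refine ⟨‖ga‖ • al + ‖al‖ • ga, ?_, ?_⟩
  · rw [inner_add_right, real_inner_smul_right, real_inner_smul_right,
      real_inner_self_eq_norm_mul_norm]
    nlinarith
  · rw [inner_add_right, real_inner_smul_right, real_inner_smul_right,
      real_inner_self_eq_norm_mul_norm, real_inner_comm]
    nlinarith

variable {G : Type} [Group G] [TopologicalSpace G] [IsTopologicalGroup G] [ConnectedSpace G]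
  [T2Space G] [LocallyCompactSpace G] [SecondCountableTopology G] [MeasurableSpace G]
  [BorelSpace G] {n k : ℕ}

variable {B : Type} [MetricSpace B] [ProperSpace B] [MeasurableSpace B] [BorelSpace B]
  [MulAction G B] [ContinuousSMul G B] {X : Type} [MetricSpace X] [ProperSpace X]
  [MeasurableSpace X] [BorelSpace X] [MulAction G X] [ContinuousSMul G X]

set_option linter.unusedSectionVars false in
theorem Std.thmD_of_hasGeo (D : Std G n k) {m : ℕ} {π : X → B} {m0 : Measure B}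
    (hG : D.HasGeo m π m0)
    (hin : ∀ (ν : Measure X) [IsProbabilityMeasure ν] (κ : Type) [Fintype κ] [DecidableEq κ]
      (S : GeoLS D B X ν κ), S.toPre.HasLW ∧ S.toPre.HasPS ∧ S.toGeoPre.HasHP) :
    D.ThmD m π m0 := by
  intro ν hν h1 h2 h3
  obtain ⟨w, hw⟩ := hG ν hν h1 h2 h3
  refine ⟨w, fun β hβ hc => ?_⟩
  obtain ⟨b, hb, hbβ, hu, -⟩ := D.exists_base hβ
  obtain ⟨al, hal, ga, -, hs, h4, h5, hbr⟩ := D.exists_sum hb
  have ho : ∀ v : Euc k, IsOpen {s : Euc k | 0 < ⟪v, s⟫} := fun v =>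
    isOpen_lt continuous_const (by fun_prop)
  obtain ⟨κ, _, _, S, hS, hcnt⟩ := hw _ ((ho al).inter (ho ga))
    (Loop.exists_pos (D.root_ne_zero hb) hs h4 h5)
  obtain ⟨h6, h7, h8⟩ := hin ν κ S
  have he := Std.cls_eq hbβ
  obtain ⟨c, hc0, Y, hY, hY0, hm⟩ := S.toGeoPre.loop h6 h7 h8 hb (he ▸ hu) hal hs h4 hbr hS.1 hS.2
    (by
      rw [Std.u, he]
      exact (Loop.card_le_of_fiber _ _ w _ hcnt).trans_lt hc)
  obtain ⟨d, hd, rfl⟩ := hbβ
  exact ⟨c * d, mul_pos hc0 hd, Y, by rwa [mul_smul], hY0, hm⟩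

end Pool.Agent.P.MP_d483fb_an.Z
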